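import Pool.Agent.DCC.Targets

/-!
# DCC-CIN: the solenoid is contained in the image of the fan
-/

set_option autoImplicit false

open Set Topology

namespace Pool.Agent.DCC

theorem CIN_angle (c : Circle) : ∃ τ : ℝ, τ ∈ Ico (0 : ℝ) 1 ∧ Circle.exp (2 * Real.pi * τ) = c := by
  have hpi : 0 < 2 * Real.pi := by positivity
  obtain ⟨a, ha⟩ : ∃ a : ℝ, Circle.exp a = c := by
    exact ⟨Complex.arg (c : ℂ), Circle.exp_arg c⟩
  refine ⟨Int.fract (a / (2 * Real.pi)), ⟨Int.fract_nonneg _, Int.fract_lt_one _⟩, ?_⟩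
  have h1 : 2 * Real.pi * Int.fract (a / (2 * Real.pi))
      = a - (⌊a / (2 * Real.pi)⌋ : ℤ) * (2 * Real.pi) := by
    rw [Int.fract]
    field_simp
  rw [h1, Circle.exp_sub, ha]
  have h2 : Circle.exp ((⌊a / (2 * Real.pi)⌋ : ℤ) * (2 * Real.pi)) = 1 := by
    exact Circle.exp_int_mul_two_pi _
  rw [h2, div_one]

theorem t_CIN (hSC : T_SC) : T_CIN := by
  obtain ⟨-, -, hfl, -, -, hmul, hinv, hroot, -⟩ := hSC
  rintro a ⟨z, hz, rfl⟩
  obtain ⟨τ, ⟨hτ0, hτ1⟩, hτ⟩ := CIN_angle (z 0)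
  have h3 : ∀ w ∈ Sol, w ^ 3 ∈ Sol := by
    intro w hw
    have e : w ^ 3 = w * w * w := by rw [pow_succ, pow_two]
    rw [e]
    exact hmul _ (hmul _ hw _ hw) _ hw
  have hq : z * (fl τ ^ 3)⁻¹ ∈ Sol0 := by
    refine ⟨hmul _ hz _ (hinv _ (h3 _ (hfl τ))), ?_⟩
    have e1 : (fl τ) 0 ^ 3 = z 0 := by
      rw [← hτ]
      unfold fl
      rw [← Circle.exp_nsmul]
      congr 1
      simp
      ring
    simp only [Pi.mul_apply, Pi.inv_apply, Pi.pow_apply, e1]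
    exact mul_inv_cancel (z 0)
  obtain ⟨w, hw, hw3⟩ := hroot _ hq
  have hwz : ∀ k, (w k * fl τ k) ^ 3 = z k := by
    intro k
    have e2 := congrFun hw3 k
    simp only [Pi.mul_apply, Pi.inv_apply, Pi.pow_apply] at e2
    rw [mul_pow, e2]
    exact inv_mul_cancel_right _ _
  refine ⟨pt w (1 + τ) 0, ⟨w, hw, 1 + τ, ⟨by linarith, by linarith⟩, rfl⟩, ?_⟩
  have e3 : min (1 + τ) 1 = (1 : ℝ) := min_eq_right (by linarith)
  have e4 : max (1 + τ - 1) 0 = τ := by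
    rw [show 1 + τ - 1 = τ by ring]
    exact max_eq_left hτ0
  unfold cub pt
  simp only [e3, e4, sub_self]
  refine Prod.ext ?_ rfl
  funext k
  simp only [ite_self, Complex.ofReal_one, one_mul]
  rw [← hwz k]
  push_cast
  rfl

end Pool.Agent.DCC
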