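import Pool.Agent.DCC.Targets

/-!
# CLR: the ray accumulates on the whole fan
-/

set_option autoImplicit false

open Set Topology

namespace Pool.Agent.DCC

theorem t_CLR (hPC : T_PC) : T_CLR := by
  rintro x hx a ⟨w, hw, u, hu, rfl⟩
  rw [mem_closure_iff]
  intro o ho hao
  have hc : Continuous (fun q : (ℕ → Circle) × ℝ => pt q.1 u q.2) :=
    hPC.1.comp (Continuous.prodMk continuous_fst (Continuous.prodMk continuous_const
      continuous_snd))
  have hopen := ho.preimage hc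
  rw [isOpen_prod_iff] at hopen
  obtain ⟨U, V, hU, hV, hwU, h0V, hUV⟩ := hopen w 0 hao
  obtain ⟨ε, hε, hball⟩ := Metric.isOpen_iff.1 hV 0 h0V
  set θ : ℝ := Real.arccos (1 - u) / (2 * Real.pi) with hθ
  have hpi := Real.pi_pos
  have hθ0 : 0 ≤ θ := div_nonneg (Real.arccos_nonneg _) (by positivity)
  have hθ1 : θ ≤ 1 := by
    rw [hθ, div_le_one (by positivity)]
    have := Real.arccos_le_pi (1 - u)
    linarith
  have hcos : Real.cos (2 * Real.pi * θ) = 1 - u := by
    have e : 2 * Real.pi * θ = Real.arccos (1 - u) := by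
      rw [hθ]
      field_simp
    rw [e, Real.cos_arccos (by linarith [hu.2]) (by linarith [hu.1])]
  obtain ⟨n, hn, hxn⟩ := hx.2 w hw U hU hwU (⌈1 / ε⌉₊ + 1)
  have hn1 : 1 ≤ n := by omega
  have hn2 : 1 / ε < (n : ℝ) := by
    have h1 : (1 / ε) ≤ (⌈1 / ε⌉₊ : ℝ) := Nat.le_ceil _
    have h2 : ((⌈1 / ε⌉₊ + 1 : ℕ) : ℝ) ≤ (n : ℝ) := by exact_mod_cast hn
    push_cast at h2
    linarith
  have hnpos : (0 : ℝ) < n := by exact_mod_cast hn1
  set t : ℝ := n + θ with ht
  have htpos : 0 < t := by linarith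
  have hti : 1 / t < ε := by
    rw [div_lt_iff₀ htpos]
    rw [div_lt_iff₀ hε] at hn2
    nlinarith
  have hcost : Real.cos (2 * Real.pi * t) = 1 - u := by
    have e : 2 * Real.pi * t = 2 * Real.pi * θ + n * (2 * Real.pi) := by
      rw [ht]
      ring
    rw [e, Real.cos_add_nat_mul_two_pi, hcos]
  refine ⟨pt (x n) u (1 / t), ?_, n, hn1, t, ⟨by linarith, by linarith⟩, ?_⟩
  · have : ((x n, 1 / t) : (ℕ → Circle) × ℝ) ∈ U ×ˢ V := by
      refine ⟨hxn, hball ?_⟩
      rw [Metric.mem_ball, Real.dist_eq, sub_zero, abs_of_pos (by positivity)]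
      exact hti
    exact hUV this
  · rw [hcost]
    congr 1
    ring

end Pool.Agent.DCC
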