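import Pool.Agent.DCC.Targets

/-!
# COV: the covering map is a local homeomorphism
-/

set_option autoImplicit false

open Set Topology

namespace Pool.Agent.DCC

namespace COV_

/-- the parameters of the points of `X` -/
def Pm (a : Amb) : Prop :=
  ∃ w ∈ Sol, w 0 ^ 3 = 1 ∧ ∃ u ∈ Icc (0 : ℝ) 2, ∃ ρ : ℝ, a = pt w u ρ

theorem pm_sheet {x : ℕ → ℕ → Circle} (hx : Good x) {a : Amb} (ha : a ∈ sheet x) : Pm a := by
  rcases ha with ⟨w, hw, u, hu, rfl⟩ | ⟨n, _, t, _, rfl⟩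
  · exact ⟨w, hw.1, by rw [hw.2]; simp, u, hu, 0, rfl⟩
  · refine ⟨x n, (hx.1 n).1, by rw [(hx.1 n).2]; simp, 1 - Real.cos (2 * Real.pi * t), ?_,
      1 / t, rfl⟩
    have h1 := Real.neg_one_le_cos (2 * Real.pi * t)
    have h2 := Real.cos_le_one (2 * Real.pi * t)
    exact ⟨by linarith, by linarith⟩

theorem pm_rot (hPC : T_PC) (hSC : T_SC) {a : Amb} (ha : Pm a) : Pm (rot a) := by
  obtain ⟨w, hw, hw3, u, hu, ρ, rfl⟩ := ha
  obtain ⟨_, _, _, hrot, _, _⟩ := hPC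
  obtain ⟨_, _, _, hzt, hzt3, hmul, _, _, _⟩ := hSC
  refine ⟨zt * w, hmul _ hzt _ hw, ?_, u, hu, ρ, hrot w u ρ⟩
  rw [Pi.mul_apply, mul_pow, hzt3, hw3, one_mul]

theorem pm_bigX (hPC : T_PC) (hSC : T_SC) {x : ℕ → ℕ → Circle} (hx : Good x) {a : Amb}
    (ha : a ∈ bigX x) : Pm a := by
  rcases ha with h | ⟨b, h, rfl⟩ | ⟨b, ⟨c, h, rfl⟩, rfl⟩
  · exact pm_sheet hx h
  · exact pm_rot hPC hSC (pm_sheet hx h)
  · exact pm_rot hPC hSC (pm_rot hPC hSC (pm_sheet hx h))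

theorem rot_bigX (hPC : T_PC) {x : ℕ → ℕ → Circle} {a : Amb} (ha : a ∈ bigX x) :
    rot a ∈ bigX x := by
  obtain ⟨_, _, _, _, h3, _⟩ := hPC
  rcases ha with h | ⟨b, h, rfl⟩ | ⟨b, ⟨c, h, rfl⟩, rfl⟩
  · exact Or.inr (Or.inl ⟨a, h, rfl⟩)
  · exact Or.inr (Or.inr ⟨rot b, ⟨b, h, rfl⟩, rfl⟩)
  · rw [h3]
    exact Or.inl h

theorem fib (hPC : T_PC) (hPF : T_PF) (hSC : T_SC) {x : ℕ → ℕ → Circle} (hx : Good x)
    {a b : Amb} (ha : a ∈ bigX x) (hb : b ∈ bigX x) (h : cub a = cub b) :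
    a = b ∨ a = rot b ∨ a = rot (rot b) := by
  obtain ⟨w, hw, hw3, u, hu, ρ, rfl⟩ := pm_bigX hPC hSC hx ha
  obtain ⟨w', hw', hw3', u', hu', ρ', rfl⟩ := pm_bigX hPC hSC hx hb
  exact hPF w hw w' hw' u hu u' hu' ρ ρ' hw3 hw3' h

theorem norm_pm {a : Amb} (ha : Pm a) : ‖a.1 0‖ = 1 := by
  obtain ⟨w, _, _, u, _, ρ, rfl⟩ := ha
  unfold pt
  simp [Circle.norm_coe]

theorem rot_coord (a : Amb) : (rot a).1 0 = (zt 0 : ℂ) * a.1 0 := rfl

theorem zt_prim : IsPrimitiveRoot (zt 0 : ℂ) 3 := by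
  have h := Complex.isPrimitiveRoot_exp 3 (by norm_num)
  have h1 : (zt 0 : ℂ) = Complex.exp (2 * Real.pi * Complex.I / ((3 : ℕ) : ℂ)) := by
    unfold zt
    rw [pow_zero, pow_one, Circle.coe_exp]
    congr 1
    push_cast
    ring
  rw [h1]
  exact h

theorem norm_aux {z : ℂ} (h1 : ‖z‖ = 1) (h2 : z ^ 2 + z + 1 = 0) : 1 ≤ ‖z - 1‖ := by
  have h3 : (z - 1) ^ 2 = -3 * z := by linear_combination h2
  have h4 : ‖z - 1‖ ^ 2 = 3 := by
    rw [← norm_pow, h3, norm_mul, h1]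
    simp
  have h5 := norm_nonneg (z - 1)
  nlinarith

theorem zt_sum : (zt 0 : ℂ) ^ 2 + (zt 0 : ℂ) + 1 = 0 := by
  have h := zt_prim.geom_sum_eq_zero (by norm_num)
  simp only [Finset.sum_range_succ, Finset.sum_range_zero, pow_zero, pow_one, zero_add] at h
  linear_combination h

theorem zt_cube : (zt 0 : ℂ) ^ 3 = 1 := zt_prim.pow_eq_one

theorem d1 : 1 ≤ ‖(zt 0 : ℂ) - 1‖ := norm_aux (Circle.norm_coe _) zt_sum

theorem d2 : 1 ≤ ‖(zt 0 : ℂ) * (zt 0 : ℂ) - 1‖ := by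
  refine norm_aux ?_ ?_
  · rw [norm_mul, Circle.norm_coe, one_mul]
  · have h1 := zt_sum
    have h2 := zt_cube
    linear_combination ((zt 0 : ℂ)) * h2 + h1

end COV_

open COV_

theorem t_COV (hSHC : T_SHC) (hPC : T_PC) (hPF : T_PF) (hSC : T_SC) : T_COV := by
  intro x hx
  obtain ⟨_, hrc, hcc, _, hr3, hcr⟩ := id hPC
  have hsc := (hSHC x hx).1
  have hXc : IsCompact (bigX x) :=
    hsc.union ((hsc.image hrc).union ((hsc.image hrc).image hrc))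
  have : CompactSpace (bigX x) := isCompact_iff_compactSpace.mp hXc
  have hmem : ∀ a ∈ bigX x, cub a ∈ bigY x := by
    rintro a (h | ⟨b, h, rfl⟩ | ⟨b, ⟨c, h, rfl⟩, rfl⟩)
    · exact ⟨a, h, rfl⟩
    · exact ⟨b, h, (hcr b).symm⟩
    · exact ⟨c, h, by rw [hcr, hcr]⟩
  set F : bigX x → bigY x := fun a => ⟨cub a.1, hmem a.1 a.2⟩ with hF
  have hFc : Continuous F := Continuous.subtype_mk (hcc.comp continuous_subtype_val) _
  have hFs : Function.Surjective F := by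
    rintro ⟨_, b, hb, rfl⟩
    exact ⟨⟨b, Or.inl hb⟩, rfl⟩
  set R : bigX x → bigX x := fun a => ⟨rot a.1, rot_bigX hPC a.2⟩ with hR
  have hRc : Continuous R := Continuous.subtype_mk (hrc.comp continuous_subtype_val) _
  have hFR : ∀ a, F (R a) = F a := fun a => Subtype.ext (hcr a.1)
  have hR3 : ∀ a, R (R (R a)) = a := fun a => Subtype.ext (hr3 a.1)
  have hfib : ∀ a b, F a = F b → a = b ∨ a = R b ∨ a = R (R b) := by
    intro a b h
    have h1 : cub a.1 = cub b.1 := congrArg Subtype.val h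
    rcases fib hPC hPF hSC hx a.2 b.2 h1 with h2 | h2 | h2
    · exact Or.inl (Subtype.ext h2)
    · exact Or.inr (Or.inl (Subtype.ext h2))
    · exact Or.inr (Or.inr (Subtype.ext h2))
  have hFcl : IsClosedMap F := hFc.isClosedMap
  have hFo : IsOpenMap F := by
    intro U hU
    have hS : IsOpen (U ∪ R ⁻¹' U ∪ (R ∘ R) ⁻¹' U) :=
      (hU.union (hU.preimage hRc)).union (hU.preimage (hRc.comp hRc))
    have h1 := (hFcl _ hS.isClosed_compl).isOpen_compl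
    convert h1 using 1
    ext y
    constructor
    · rintro ⟨u, hu, rfl⟩ ⟨v, hv, hvu⟩
      refine hv ?_
      rcases hfib v u hvu with h | h | h
      · exact Or.inl (Or.inl (h ▸ hu))
      · refine Or.inr ?_
        change R (R v) ∈ U
        rw [h, hR3]
        exact hu
      · refine Or.inl (Or.inr ?_)
        change R v ∈ U
        rw [h, hR3]
        exact hu
    · intro hy
      obtain ⟨v, rfl⟩ := hFs y
      by_contra hcon
      refine hy ⟨v, ?_, rfl⟩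
      rintro ((h | h) | h)
      · exact hcon ⟨v, h, rfl⟩
      · exact hcon ⟨R v, h, hFR v⟩
      · exact hcon ⟨R (R v), h, by rw [hFR, hFR]⟩
  refine ⟨F, fun a => rfl, ?_, hFs⟩
  rw [isLocalHomeomorph_iff_isOpenEmbedding_restrict]
  intro a
  have hco : Continuous (fun b : bigX x => b.1.1 0) :=
    (continuous_apply 0).comp (continuous_fst.comp continuous_subtype_val)
  have hUo : IsOpen {b : bigX x | dist (b.1.1 0) (a.1.1 0) < 1 / 2} :=
    isOpen_lt (hco.dist continuous_const) continuous_const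
  refine ⟨{b : bigX x | dist (b.1.1 0) (a.1.1 0) < 1 / 2}, hUo.mem_nhds (by simp), ?_⟩
  refine IsOpenEmbedding.of_continuous_injective_isOpenMap
    (hFc.comp continuous_subtype_val) ?_ (hFo.domRestrict hUo)
  rintro ⟨b, hb⟩ ⟨b', hb'⟩ h
  have h1 : F b = F b' := h
  have hd : dist (b.1.1 0) (b'.1.1 0) < 1 := by
    have h2 : dist (b.1.1 0) (a.1.1 0) < 1 / 2 := hb
    have h3 : dist (b'.1.1 0) (a.1.1 0) < 1 / 2 := hb'
    have h4 := dist_triangle_right (b.1.1 0) (b'.1.1 0) (a.1.1 0)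
    linarith
  have hn := norm_pm (pm_bigX hPC hSC hx b'.2)
  rcases hfib b b' h1 with h2 | h2 | h2
  · exact Subtype.ext h2
  · exfalso
    have h3 : b.1.1 0 = (zt 0 : ℂ) * b'.1.1 0 := by rw [h2]; rfl
    rw [h3, dist_eq_norm] at hd
    have h4 : (zt 0 : ℂ) * b'.1.1 0 - b'.1.1 0 = ((zt 0 : ℂ) - 1) * b'.1.1 0 := by ring
    rw [h4, norm_mul, hn, mul_one] at hd
    linarith [d1]
  · exfalso
    have h3 : b.1.1 0 = (zt 0 : ℂ) * ((zt 0 : ℂ) * b'.1.1 0) := by rw [h2]; rfl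
    rw [h3, dist_eq_norm] at hd
    have h4 : (zt 0 : ℂ) * ((zt 0 : ℂ) * b'.1.1 0) - b'.1.1 0 =
      ((zt 0 : ℂ) * (zt 0 : ℂ) - 1) * b'.1.1 0 := by ring
    rw [h4, norm_mul, hn, mul_one] at hd
    linarith [d2]

end Pool.Agent.DCC
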