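import Mathlib

/-!
# Local homeomorphic images of delta-connected continua: definitions (project DCC)
-/

set_option autoImplicit false

open Set Topology

namespace Pool.Agent.DCC

/-- `M` is the union of two proper subcontinua -/
def Decomp {X : Type} [TopologicalSpace X] (M : Set X) : Prop :=
  ∃ A B : Set X, A ⊆ M ∧ B ⊆ M ∧ A ≠ M ∧ B ≠ M ∧ IsCompact A ∧ IsConnected A ∧
    IsCompact B ∧ IsConnected B ∧ A ∪ B = M

/-- hereditarily decomposable -/
def HD {X : Type} [TopologicalSpace X] (K : Set X) : Prop :=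
  ∀ M : Set X, M ⊆ K → IsCompact M → IsConnected M → M.Nontrivial → Decomp M

/-- the dyadic solenoid -/
def Sol : Set (ℕ → Circle) := {w | ∀ k, w (k + 1) ^ 2 = w k}

/-- the fibre over `1` (a Cantor set) -/
def Sol0 : Set (ℕ → Circle) := {w | w ∈ Sol ∧ w 0 = 1}

/-- the flow: the first coordinate turns by the angle `2 π τ / 3` -/
noncomputable def fl (τ : ℝ) : ℕ → Circle := fun k => Circle.exp (2 * Real.pi * τ / (3 * 2 ^ k))

/-- the element of order three of the solenoid -/
noncomputable def zt : ℕ → Circle := fun k => Circle.exp (2 * Real.pi / 3) ^ (2 ^ k)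

/-- the ambient space -/
abbrev Amb : Type := (ℕ → ℂ) × ℝ × ℝ

/-- for `0 ≤ u ≤ 1` a point of the cone over the solenoid (the coordinate `0` is not shrunk), for
`1 ≤ u ≤ 2` the flow of `w` at time `u - 1`; the last coordinate is `ρ` -/
noncomputable def pt (w : ℕ → Circle) (u ρ : ℝ) : Amb :=
  (fun k => ((if k = 0 then 1 else min u 1 : ℝ) : ℂ) * ((w k : ℂ) * (fl (max (u - 1) 0) k : ℂ)),
    1 - min u 1, ρ)

/-- rotation by the element of order three -/
noncomputable def rot (a : Amb) : Amb := (fun k => (zt k : ℂ) * a.1 k, a.2)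

/-- the threefold covering map -/
noncomputable def cub (a : Amb) : Amb := (fun k => a.1 k ^ 3, a.2)

/-- the fan over the fibre `Sol0`, legs of length two -/
def core : Set Amb := {a | ∃ w ∈ Sol0, ∃ u ∈ Icc (0 : ℝ) 2, a = pt w u 0}

/-- the pieces of the ray: up and down the leg of `x n`, for `n ≤ t ≤ n + 1` -/
def rayp (x : ℕ → ℕ → Circle) (n : ℕ) : Set Amb :=
  {a | ∃ t ∈ Icc (n : ℝ) (n + 1), a = pt (x n) (1 - Real.cos (2 * Real.pi * t)) (1 / t)}

/-- the ray -/
def ray (x : ℕ → ℕ → Circle) : Set Amb := {a | ∃ n : ℕ, 1 ≤ n ∧ a ∈ rayp x n}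

/-- one sheet: the fan and a ray which converges to the whole fan -/
def sheet (x : ℕ → ℕ → Circle) : Set Amb := core ∪ ray x

/-- the sequence runs in `Sol0` and all its tails are dense there -/
def Good (x : ℕ → ℕ → Circle) : Prop :=
  (∀ n, x n ∈ Sol0) ∧ ∀ w ∈ Sol0, ∀ U : Set (ℕ → Circle), IsOpen U → w ∈ U → ∀ N : ℕ,
    ∃ n, N ≤ n ∧ x n ∈ U

/-- the space `X` -/
def bigX (x : ℕ → ℕ → Circle) : Set Amb :=
  sheet x ∪ (rot '' sheet x ∪ rot '' (rot '' sheet x))

/-- the space `Y` -/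
def bigY (x : ℕ → ℕ → Circle) : Set Amb := cub '' sheet x

/-- the solenoid inside `Y` -/
def solY : Set Amb := {a | ∃ z ∈ Sol, a = (fun k => (z k : ℂ), 0, 0)}

end Pool.Agent.DCC
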