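import Pool.Agent.DCC.Targets

/-!
# FIN: continua which are unions of two proper closed sets with finite intersection
-/

set_option autoImplicit false

open Set Topology

namespace Pool.Agent.DCC

namespace FIN_

variable {X : Type} [TopologicalSpace X]

/-- the set `S` has empty interior relative to `M` -/
def Emp (M S : Set X) : Prop := ∀ O : Set X, IsOpen O → (O ∩ M).Nonempty → ¬ O ∩ M ⊆ S

theorem emp_union {M S T : Set X} (hS : IsClosed S) (h1 : Emp M S) (h2 : Emp M T) :
    Emp M (S ∪ T) := by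
  intro O hO hne hsub
  by_cases h : ((O \ S) ∩ M).Nonempty
  · refine h2 (O \ S) (hO.sdiff hS) h ?_
    rintro x ⟨⟨hxO, hxS⟩, hxM⟩
    exact (hsub ⟨hxO, hxM⟩).resolve_left hxS
  · refine h1 O hO hne fun x hx => ?_
    by_contra hxS
    exact h ⟨x, ⟨hx.1, hxS⟩, hx.2⟩

theorem emp_biUnion {M D : Set X} (hD : D.Finite) (F : X → Set X)
    (hF : ∀ d ∈ D, IsClosed (F d)) (hE : ∀ d ∈ D, Emp M (F d)) :
    IsClosed (⋃ d ∈ D, F d) ∧ Emp M (⋃ d ∈ D, F d) := by
  induction D, hD using Set.Finite.induction_on with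
  | empty =>
    rw [biUnion_empty]
    exact ⟨isClosed_empty, fun O _ hne hsub => (hsub hne.some_mem).elim⟩
  | @insert a D _ _ ih =>
    obtain ⟨h1, h2⟩ := ih (fun d hd => hF d (mem_insert_of_mem _ hd))
      (fun d hd => hE d (mem_insert_of_mem _ hd))
    rw [biUnion_insert]
    exact ⟨(hF a (mem_insert _ _)).union h1, emp_union (hF a (mem_insert _ _))
      (hE a (mem_insert _ _)) h2⟩

/-- the components of `N` meet `P` -/
theorem bump [T2Space X] {M N P : Set X} (hM : IsConnected M) (hN : IsCompact N)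
    (hP : IsCompact P) (hU : N ∪ P = M) (hNM : N ≠ M) {z : X} (hz : z ∈ N) :
    ∃ d ∈ N ∩ P, z ∈ connectedComponentIn N d := by
  have : CompactSpace N := isCompact_iff_compactSpace.1 hN
  set z' : N := ⟨z, hz⟩ with hz'
  by_cases h : ∃ d : N, d ∈ connectedComponent z' ∧ (d : X) ∈ P
  · obtain ⟨d, hd, hdP⟩ := h
    refine ⟨d, ⟨d.2, hdP⟩, ?_⟩
    rw [connectedComponentIn_eq_image d.2]
    refine ⟨z', ?_, rfl⟩
    rw [← connectedComponent_eq hd]
    exact mem_connectedComponent
  · exfalso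
    push Not at h
    -- a clopen set
    have hdir : Directed (· ⊇ ·) (fun s : {s : Set N // IsClopen s ∧ z' ∈ s} => (s : Set N)) :=
      fun s t => ⟨⟨s.1 ∩ t.1, s.2.1.inter t.2.1, s.2.2, t.2.2⟩, inter_subset_left,
        inter_subset_right⟩
    have hPc : IsClosed {y : N | (y : X) ∈ P} := hP.isClosed.preimage continuous_subtype_val
    have : Nonempty {s : Set N // IsClopen s ∧ z' ∈ s} := ⟨⟨univ, isClopen_univ, mem_univ _⟩⟩
    obtain ⟨V, hV⟩ := exists_subset_nhds_of_isCompact' (U := {y : N | (y : X) ∈ P}ᶜ) hdir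
      (fun s => s.2.1.isClosed.isCompact) (fun s => s.2.1.isClosed) (by
        intro y hy
        rw [← connectedComponent_eq_iInter_isClopen] at hy
        exact hPc.isOpen_compl.mem_nhds (h y hy))
    have hA : IsClosed ((fun y : N => (y : X)) '' V.1) :=
      (V.2.1.isClosed.isCompact.image continuous_subtype_val).isClosed
    have hB : IsClosed ((fun y : N => (y : X)) '' (V.1)ᶜ ∪ P) :=
      ((V.2.1.compl.isClosed.isCompact.image continuous_subtype_val).isClosed).union hP.isClosed
    have hcov : M ⊆ ((fun y : N => (y : X)) '' V.1) ∪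
        ((fun y : N => (y : X)) '' (V.1)ᶜ ∪ P) := by
      intro x hx
      rw [← hU] at hx
      rcases hx with hx | hx
      · by_cases hxV : (⟨x, hx⟩ : N) ∈ V.1
        · exact Or.inl ⟨⟨x, hx⟩, hxV, rfl⟩
        · exact Or.inr (Or.inl ⟨⟨x, hx⟩, hxV, rfl⟩)
      · exact Or.inr (Or.inr hx)
    have hne1 : (M ∩ ((fun y : N => (y : X)) '' V.1)).Nonempty := by
      refine ⟨z, ?_, z', V.2.2, rfl⟩
      rw [← hU]
      exact Or.inl hz
    have hne2 : (M ∩ ((fun y : N => (y : X)) '' (V.1)ᶜ ∪ P)).Nonempty := by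
      by_contra hcon
      apply hNM
      refine Subset.antisymm (by rw [← hU]; exact subset_union_left) fun x hx => ?_
      rcases hcov hx with h1 | h1
      · obtain ⟨y, _, rfl⟩ := h1
        exact y.2
      · exact absurd ⟨x, hx, h1⟩ hcon
    obtain ⟨x, _, hx1, hx2⟩ := isPreconnected_closed_iff.1 hM.isPreconnected _ _ hA hB hcov
      hne1 hne2
    obtain ⟨y, hyV, rfl⟩ := hx1
    rcases hx2 with h1 | h1
    · obtain ⟨y', hy', he⟩ := h1
      exact hy' ((Subtype.ext he : y' = y) ▸ hyV)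
    · exact hV hyV h1

/-- the components have empty interior -/
theorem emp_comp [T2Space X] (hNI : T_NI) {M N : Set X} (hMc : IsCompact M)
    (hM : IsConnected M) (hN : IsCompact N) (hNs : N ⊆ M) (hNM : N ≠ M) (hD : ¬ Decomp M)
    {d : X} (hd : d ∈ N) :
    IsClosed (connectedComponentIn N d) ∧ Emp M (connectedComponentIn N d) := by
  have : CompactSpace N := isCompact_iff_compactSpace.1 hN
  have hc : IsCompact (connectedComponentIn N d) := by
    rw [connectedComponentIn_eq_image hd]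
    exact isClosed_connectedComponent.isCompact.image continuous_subtype_val
  have hs : connectedComponentIn N d ⊆ N := connectedComponentIn_subset N d
  refine ⟨hc.isClosed, fun O hO hne hsub => hD ?_⟩
  refine hNI X M (connectedComponentIn N d) O hMc hM hc
    (isConnected_connectedComponentIn_iff.2 hd) (hs.trans hNs) (fun he => ?_) hO hne hsub
  exact hNM (Subset.antisymm hNs (he ▸ hs))

end FIN_

/-- FIN -/
theorem t_FIN (hNI : T_NI) : T_FIN := by
  intro X _ _ M M1 M2 hMc hM h1 h2 hU hne1 hne2 hfin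
  by_contra hD
  have hs1 : M1 ⊆ M := by rw [← hU]; exact subset_union_left
  have hs2 : M2 ⊆ M := by rw [← hU]; exact subset_union_right
  obtain ⟨c1, e1⟩ := FIN_.emp_biUnion (M := M) hfin (connectedComponentIn M1)
    (fun d hd => (FIN_.emp_comp hNI hMc hM h1 hs1 hne1 hD hd.1).1)
    (fun d hd => (FIN_.emp_comp hNI hMc hM h1 hs1 hne1 hD hd.1).2)
  obtain ⟨c2, e2⟩ := FIN_.emp_biUnion (M := M) hfin (connectedComponentIn M2)
    (fun d hd => (FIN_.emp_comp hNI hMc hM h2 hs2 hne2 hD hd.2).1)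
    (fun d hd => (FIN_.emp_comp hNI hMc hM h2 hs2 hne2 hD hd.2).2)
  refine FIN_.emp_union c1 e1 e2 univ isOpen_univ ?_ ?_
  · rw [univ_inter]
    exact hM.nonempty
  · rw [univ_inter]
    intro z hz
    have hz' := hz
    rw [← hU] at hz'
    rcases hz' with hz1 | hz2
    · obtain ⟨d, hd, hzd⟩ := FIN_.bump hM h1 h2 hU hne1 hz1
      exact Or.inl (mem_biUnion hd hzd)
    · obtain ⟨d, hd, hzd⟩ := FIN_.bump hM h2 h1 (by rw [union_comm]; exact hU) hne2 hz2
      exact Or.inr (mem_biUnion ⟨hd.2, hd.1⟩ hzd)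

end Pool.Agent.DCC
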