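import Pool.Agent.DCC.Targets

/-!
# Project DCC: two consecutive fans form a hereditarily decomposable set
-/

set_option autoImplicit false

open Set Topology

namespace Pool.Agent.DCC

namespace HDC_

/-- the points of the two fans -/
noncomputable def P (b : Bool) (w : ℕ → Circle) (u : ℝ) : Amb :=
  pt (if b then w * fl 1 else w) u 0

/-- the part of the two fans with labels in `C` -/
def W (C : Set (ℕ → Circle)) : Set Amb :=
  {a | ∃ b : Bool, ∃ w ∈ C, ∃ u ∈ Icc (0 : ℝ) 2, a = P b w u}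

theorem fin (hFIN : T_FIN) (M K1 K2 : Set Amb) (hM : IsCompact M) (hMc : IsConnected M)
    (h1 : IsCompact K1) (h2 : IsCompact K2) (hcov : M ⊆ K1 ∪ K2)
    (hfin : (M ∩ (K1 ∩ K2)).Finite) (p q : Amb) (hp : p ∈ M) (hp1 : p ∉ K1) (hq : q ∈ M)
    (hq2 : q ∉ K2) : Decomp M := by
  refine hFIN Amb M (M ∩ K1) (M ∩ K2) hM hMc (hM.inter h1) (hM.inter h2) ?_ ?_ ?_ ?_
  · rw [← inter_union_distrib_left]
    exact inter_eq_left.2 hcov
  · intro h
    rw [← h] at hp
    exact hp1 hp.2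
  · intro h
    rw [← h] at hq
    exact hq2 hq.2
  · refine hfin.subset ?_
    rintro x ⟨⟨hx, hx1⟩, _, hx2⟩
    exact ⟨hx, hx1, hx2⟩

theorem rot_inj (hPC : T_PC) : Function.Injective rot := by
  intro a b h
  have h3 := hPC.2.2.2.2.1
  rw [← h3 a, ← h3 b, h]

theorem one_mem : (1 : ℕ → Circle) ∈ Sol0 := by
  refine ⟨?_, rfl⟩
  intro k
  simp

/-- the labels of a point of the two fans agree, except at the two apices -/
theorem lab (hPC : T_PC) (hPI : T_PI) (w w' : ℕ → Circle) (hw : w ∈ Sol0) (hw' : w' ∈ Sol0)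
    (u u' : ℝ) (hu : u ∈ Icc (0 : ℝ) 2) (hu' : u' ∈ Icc (0 : ℝ) 2) (b b' : Bool)
    (h : P b w u = P b' w' u') : w = w' ∨ P b w u = P false 1 0 ∨ P b w u = P true 1 0 := by
  obtain ⟨h1, h2, h3, h4, h5, h6, h7⟩ := hPI
  have hone := one_mem
  have key : ∀ v ∈ Sol0, ∀ v' ∈ Sol0, pt v u 0 = pt v' u' 0 → v = v' ∨
      pt v u 0 = pt 1 0 0 := by
    intro v hv v' hv' hvv
    rcases lt_or_eq_of_le hu.1 with h0 | h0
    · exact Or.inl (h3 v hv v' hv' u hu u' hu' 0 0 h0 hvv).1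
    · right
      rw [← h0]
      exact h1 v hv 1 hone 0
  cases b <;> cases b'
  · rcases key w hw w' hw' (by simpa [P] using h) with h8 | h8
    · exact Or.inl h8
    · right; left
      simpa [P] using h8
  · left
    exact (h4 w hw w' hw' u hu u' hu' 0 0 (by simpa [P] using h)).1
  · left
    exact (h4 w' hw' w hw u' hu' u hu 0 0 (by simpa [P] using h.symm)).1.symm
  · obtain ⟨v, hv, hvw⟩ := h7 w hw
    obtain ⟨v', hv', hvw'⟩ := h7 w' hw'
    obtain ⟨v1, hv1, hvw1⟩ := h7 1 hone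
    have hr := hPC.2.2.2.1
    have e1 : ∀ (x y : ℕ → Circle) (s : ℝ), x * fl 1 = zt * y → P true x s = rot (pt y s 0) := by
      intro x y s hxy
      rw [hr, ← hxy]
      simp [P]
    have h8 : pt v u 0 = pt v' u' 0 := by
      apply rot_inj hPC
      rw [← e1 w v u hvw, ← e1 w' v' u' hvw']
      exact h
    rcases key v hv v' hv' h8 with h9 | h9
    · left
      have h10 : w * fl 1 = w' * fl 1 := by rw [hvw, hvw', h9]
      exact mul_right_cancel h10
    · right; right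
      rw [e1 w v u hvw, e1 1 v1 0 hvw1, h9, h1 1 hone v1 hv1 0]

theorem W_compact (hPC : T_PC) (C : Set (ℕ → Circle)) (hC : IsCompact C) : IsCompact (W C) := by
  have h1 : ∀ b : Bool, IsCompact ((fun q : (ℕ → Circle) × ℝ => P b q.1 q.2) ''
      (C ×ˢ Icc (0 : ℝ) 2)) := by
    intro b
    refine (hC.prod isCompact_Icc).image ?_
    have h2 : Continuous (fun q : (ℕ → Circle) × ℝ =>
        ((if b then q.1 * fl 1 else q.1, q.2, 0) : (ℕ → Circle) × ℝ × ℝ)) := by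
      cases b
      · simp only [Bool.false_eq_true, if_false]
        fun_prop
      · simp only [if_true]
        fun_prop
    exact hPC.1.comp h2
  have h2 : W C = ((fun q : (ℕ → Circle) × ℝ => P false q.1 q.2) '' (C ×ˢ Icc (0 : ℝ) 2)) ∪
      ((fun q : (ℕ → Circle) × ℝ => P true q.1 q.2) '' (C ×ˢ Icc (0 : ℝ) 2)) := by
    ext a
    constructor
    · rintro ⟨b, w, hw, u, hu, rfl⟩
      cases b
      · exact Or.inl ⟨(w, u), ⟨hw, hu⟩, rfl⟩
      · exact Or.inr ⟨(w, u), ⟨hw, hu⟩, rfl⟩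
    · rintro (⟨⟨w, u⟩, ⟨hw, hu⟩, rfl⟩ | ⟨⟨w, u⟩, ⟨hw, hu⟩, rfl⟩)
      · exact ⟨false, w, hw, u, hu, rfl⟩
      · exact ⟨true, w, hw, u, hu, rfl⟩
  rw [h2]
  exact (h1 false).union (h1 true)

theorem pow_eq (w : ℕ → Circle) (hw : w ∈ Sol0) (k : ℕ) : w k ^ (2 ^ k) = 1 := by
  induction k with
  | zero => simpa using hw.2
  | succ k ih => rw [pow_succ', pow_mul, hw.1 k, ih]

theorem fin_roots (n : ℕ) (hn : 0 < n) : {z : Circle | z ^ n = 1}.Finite := by
  have h1 : ((Polynomial.nthRootsFinset n (1 : ℂ) : Finset ℂ) : Set ℂ).Finite :=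
    Finset.finite_toSet _
  refine (h1.preimage (f := fun z : Circle => (z : ℂ)) (Circle.coe_injective.injOn)).subset ?_
  intro z hz
  rw [mem_preimage, Finset.mem_coe, Polynomial.mem_nthRootsFinset hn]
  rw [← Circle.coe_pow, hz.out, Circle.coe_one]

/-- a continuum inside a leg -/
theorem leg (hFIN : T_FIN) (hPC : T_PC) (hPI : T_PI) (v : ℕ → Circle) (M : Set Amb)
    (hM : IsCompact M) (hMc : IsConnected M) (hnt : M.Nontrivial)
    (hsub : ∀ m ∈ M, ∃ u ∈ Icc (0 : ℝ) 2, m = pt v u 0) : Decomp M := by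
  obtain ⟨-, h2, -, -, -, -, -⟩ := hPI
  obtain ⟨p, hp, q, hq, hpq⟩ := hnt
  obtain ⟨u, hu, hpu⟩ := hsub p hp
  obtain ⟨u', hu', hqu⟩ := hsub q hq
  have hne : u ≠ u' := by
    rintro rfl
    exact hpq (hpu.trans hqu.symm)
  have main : ∀ u1 ∈ Icc (0 : ℝ) 2, ∀ u2 ∈ Icc (0 : ℝ) 2, u1 < u2 → pt v u1 0 ∈ M →
      pt v u2 0 ∈ M → Decomp M := by
    intro u1 hu1 u2 hu2 hlt hm1 hm2
    set c : ℝ := (u1 + u2) / 2 with hc
    have hcont : Continuous (fun s : ℝ => pt v s 0) := by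
      have h3 : Continuous (fun s : ℝ => ((v, s, 0) : (ℕ → Circle) × ℝ × ℝ)) := by fun_prop
      exact hPC.1.comp h3
    refine fin hFIN M ((fun s : ℝ => pt v s 0) '' Icc 0 c) ((fun s : ℝ => pt v s 0) '' Icc c 2)
      hM hMc (isCompact_Icc.image hcont) (isCompact_Icc.image hcont) ?_ ?_ (pt v u2 0)
      (pt v u1 0) hm2 ?_ hm1 ?_
    · intro m hm
      obtain ⟨s, hs, rfl⟩ := hsub m hm
      rcases le_total s c with h3 | h3
      · exact Or.inl ⟨s, ⟨hs.1, h3⟩, rfl⟩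
      · exact Or.inr ⟨s, ⟨h3, hs.2⟩, rfl⟩
    · refine (finite_singleton (pt v c 0)).subset ?_
      rintro x ⟨_, ⟨s, hs, hsx⟩, s', hs', hsx'⟩
      have h3 := h2 v 0 0 s ⟨hs.1, by linarith [hs.2, hu2.2]⟩ s'
        ⟨by linarith [hs'.1, hu1.1], hs'.2⟩ (hsx.trans hsx'.symm)
      have h4 : s = c := le_antisymm hs.2 (by rw [h3.1]; exact hs'.1)
      rw [mem_singleton_iff, ← hsx, h4]
    · rintro ⟨s, hs, hsx⟩
      have h3 := h2 v 0 0 s ⟨hs.1, by linarith [hs.2, hu2.2]⟩ u2 hu2 hsx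
      linarith [hs.2, h3.1]
    · rintro ⟨s, hs, hsx⟩
      have h3 := h2 v 0 0 s ⟨by linarith [hs.1, hu1.1], hs.2⟩ u1 hu1 hsx
      linarith [hs.1, h3.1]
  rcases lt_or_gt_of_ne hne with h3 | h3
  · exact main u hu u' hu' h3 (hpu ▸ hp) (hqu ▸ hq)
  · exact main u' hu' u hu h3 (hqu ▸ hq) (hpu ▸ hp)

end HDC_

open HDC_ in
theorem t_HDC (hFIN : T_FIN) (hPC : T_PC) (hPI : T_PI) (hSC : T_SC) : T_HDC := by
  classical
  intro M hMsub hM hMc hnt
  have hS0 : IsCompact Sol0 := hSC.2.1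
  have hmem : ∀ m ∈ M, ∃ b : Bool, ∃ w ∈ Sol0, ∃ u ∈ Icc (0 : ℝ) 2, m = P b w u := by
    intro m hm
    rcases hMsub hm with ⟨w, hw, u, hu, rfl⟩ | ⟨a, ⟨w, hw, u, hu, rfl⟩, rfl⟩
    · exact ⟨false, w, hw, u, hu, by simp [P]⟩
    · obtain ⟨w', hw', hww'⟩ := hPI.2.2.2.2.2.1 w hw
      refine ⟨true, w', hw', u, hu, ?_⟩
      rw [hPC.2.2.2.1, hww']
      simp [P]
  -- a point which is not an apex
  obtain ⟨m0, hm0, hm0A⟩ : ∃ m0 ∈ M, m0 ∉ ({P false 1 0, P true 1 0} : Set Amb) := by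
    have h1 : M.Infinite := hMc.isPreconnected.infinite_of_nontrivial hnt
    obtain ⟨m0, h2, h3⟩ := (h1.sdiff (toFinite ({P false 1 0, P true 1 0} : Set Amb))).nonempty
    exact ⟨m0, h2, h3⟩
  obtain ⟨b0, ws, hws, u0, hu0, hm0e⟩ := hmem m0 hm0
  have hapex : ∀ w w' : ℕ → Circle, w ∈ Sol0 → w' ∈ Sol0 → ∀ u ∈ Icc (0 : ℝ) 2,
      ∀ u' ∈ Icc (0 : ℝ) 2, ∀ b b' : Bool, ∀ m : Amb, m = P b w u → m = P b' w' u' →
      m ∉ ({P false 1 0, P true 1 0} : Set Amb) → w = w' := by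
    intro w w' hw hw' u hu u' hu' b b' m hm hm' hA
    rcases lab hPC hPI w w' hw hw' u u' hu hu' b b' (hm.symm.trans hm') with h | h
    · exact h
    · exfalso
      apply hA
      rw [hm]
      exact h
  by_cases hall : ∀ k : ℕ, M ⊆ W {w | w ∈ Sol0 ∧ w k = ws k}
  · -- all points have the label `ws`
    have hlab : ∀ m ∈ M, ∃ b : Bool, ∃ u ∈ Icc (0 : ℝ) 2, m = P b ws u := by
      intro m hm
      by_cases hA : m ∈ ({P false 1 0, P true 1 0} : Set Amb)
      · rcases hA with h | h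
        · refine ⟨false, 0, ⟨le_rfl, by norm_num⟩, ?_⟩
          rw [h]
          simpa [P] using hPI.1 1 one_mem ws hws 0
        · refine ⟨true, 0, ⟨le_rfl, by norm_num⟩, ?_⟩
          rw [mem_singleton_iff.1 h]
          obtain ⟨v, hv, hvw⟩ := hPI.2.2.2.2.2.2 ws hws
          obtain ⟨v1, hv1, hvw1⟩ := hPI.2.2.2.2.2.2 1 one_mem
          have hr := hPC.2.2.2.1
          have e1 : ∀ (x y : ℕ → Circle) (s : ℝ), x * fl 1 = zt * y →
              P true x s = rot (pt y s 0) := by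
            intro x y s hxy
            rw [hr, ← hxy]
            simp [P]
          rw [e1 1 v1 0 hvw1, e1 ws v 0 hvw, hPI.1 v1 hv1 v hv 0]
      · obtain ⟨b, w, hw, u, hu, he⟩ := hmem m hm
        have hww : w = ws := by
          funext k
          obtain ⟨b', w', ⟨hw', hk⟩, u', hu', he'⟩ := hall k hm
          rw [hapex w w' hw hw' u hu u' hu' b b' m he he' hA]
          exact hk
        rw [hww] at he
        exact ⟨b, u, hu, he⟩
    have hcont : ∀ b : Bool, Continuous (fun s : ℝ => P b ws s) := by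
      intro b
      have h3 : Continuous (fun s : ℝ =>
        ((if b then ws * fl 1 else ws, s, 0) : (ℕ → Circle) × ℝ × ℝ)) := by fun_prop
      exact hPC.1.comp h3
    by_cases h0 : ∀ m ∈ M, m ∈ (fun s : ℝ => P false ws s) '' Icc 0 2
    · refine leg hFIN hPC hPI ws M hM hMc hnt fun m hm => ?_
      obtain ⟨u, hu, rfl⟩ := h0 m hm
      exact ⟨u, hu, by simp [P]⟩
    by_cases h1 : ∀ m ∈ M, m ∈ (fun s : ℝ => P true ws s) '' Icc 0 2
    · refine leg hFIN hPC hPI (ws * fl 1) M hM hMc hnt fun m hm => ?_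
      obtain ⟨u, hu, rfl⟩ := h1 m hm
      exact ⟨u, hu, by simp [P]⟩
    push Not at h0 h1
    obtain ⟨p, hp, hp0⟩ := h0
    obtain ⟨q, hq, hq1⟩ := h1
    refine fin hFIN M _ _ hM hMc (isCompact_Icc.image (hcont false))
      (isCompact_Icc.image (hcont true)) ?_ ?_ p q hp hp0 hq hq1
    · intro m hm
      obtain ⟨b, u, hu, rfl⟩ := hlab m hm
      cases b
      · exact Or.inl ⟨u, hu, rfl⟩
      · exact Or.inr ⟨u, hu, rfl⟩
    · refine (finite_singleton (P false ws 2)).subset ?_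
      rintro x ⟨_, ⟨s, hs, hsx⟩, s', hs', hsx'⟩
      have h3 := hPI.2.2.2.1 ws hws ws hws s hs s' hs' 0 0
        (by simpa [P] using hsx.trans hsx'.symm)
      rw [mem_singleton_iff, ← hsx, h3.2.1]
  · push Not at hall
    obtain ⟨k, hk⟩ := hall
    obtain ⟨p, hp, hpk⟩ := not_subset.1 hk
    have hcC : IsCompact {w | w ∈ Sol0 ∧ w k = ws k} := by
      have h1 : IsClosed {w : ℕ → Circle | w k = ws k} :=
        isClosed_eq (continuous_apply k) continuous_const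
      exact hS0.inter_right h1
    have hcC' : IsCompact {w | w ∈ Sol0 ∧ w k ≠ ws k} := by
      have hF : ({z : Circle | z ^ (2 ^ k) = 1} \ {ws k}).Finite :=
        (fin_roots (2 ^ k) (by positivity)).sdiff
      have h1 : IsClosed {w : ℕ → Circle | w k ∈ ({z : Circle | z ^ (2 ^ k) = 1} \ {ws k})} :=
        hF.isClosed.preimage (continuous_apply k)
      have h2 : {w | w ∈ Sol0 ∧ w k ≠ ws k} =
          Sol0 ∩ {w : ℕ → Circle | w k ∈ ({z : Circle | z ^ (2 ^ k) = 1} \ {ws k})} := by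
        ext w
        constructor
        · rintro ⟨hw, hne⟩
          exact ⟨hw, pow_eq w hw k, hne⟩
        · rintro ⟨hw, _, hne⟩
          exact ⟨hw, hne⟩
      rw [h2]
      exact hS0.inter_right h1
    refine fin hFIN M _ _ hM hMc (W_compact hPC _ hcC) (W_compact hPC _ hcC') ?_ ?_ p m0 hp hpk
      hm0 ?_
    · intro m hm
      obtain ⟨b, w, hw, u, hu, rfl⟩ := hmem m hm
      by_cases h : w k = ws k
      · exact Or.inl ⟨b, w, ⟨hw, h⟩, u, hu, rfl⟩
      · exact Or.inr ⟨b, w, ⟨hw, h⟩, u, hu, rfl⟩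
    · refine (toFinite ({P false 1 0, P true 1 0} : Set Amb)).subset ?_
      rintro x ⟨_, ⟨b, w, ⟨hw, h1⟩, u, hu, hx⟩, b', w', ⟨hw', h1'⟩, u', hu', hx'⟩
      by_contra hA
      have h2 := hapex w w' hw hw' u hu u' hu' b b' x hx hx' hA
      apply h1'
      rw [← h2]
      exact h1
    · rintro ⟨b', w', ⟨hw', h1'⟩, u', hu', hx'⟩
      have h2 := hapex ws w' hws hw' u0 hu0 u' hu' b0 b' m0 hm0e hx' hm0A
      apply h1'
      rw [← h2]

end Pool.Agent.DCC
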