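import Pool.Agent.DCC.Targets

/-!
# Two consecutive sheets form a hereditarily decomposable set
-/

set_option autoImplicit false

open Set Topology

namespace Pool.Agent.DCC

theorem t_HDS (hFIN : T_FIN) (hLEV : T_LEV) (hHDC : T_HDC) (_hSHC : T_SHC) (_hPC : T_PC) :
    T_HDS := by
  intro x hx M hMS hMc hMconn hMn
  obtain ⟨h1, h2⟩ := hLEV x hx
  have hfin : ∀ c : ℝ, 0 < c → {a : Amb | a ∈ M ∧ a.2.2 = c}.Finite := by
    intro c hc
    have hs : {a : Amb | a ∈ sheet x ∧ a.2.2 = c}.Subsingleton := by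
      intro a ha b hb
      exact h2 a ha.1 b hb.1 (by rw [ha.2]; exact hc) (ha.2.trans hb.2.symm)
    refine (hs.finite.union (hs.finite.image rot)).subset ?_
    rintro a ⟨ha, hac⟩
    rcases hMS ha with h | ⟨b, hb, rfl⟩
    · exact Or.inl ⟨h, hac⟩
    · exact Or.inr ⟨b, ⟨hb, hac⟩, rfl⟩
  have hlev : ∀ a ∈ M, 0 ≤ a.2.2 := by
    intro a ha
    rcases hMS ha with h | ⟨b, hb, rfl⟩
    · exact (h1 a h).1
    · exact (h1 b hb).1
  by_cases h0 : ∀ a ∈ M, a.2.2 = 0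
  · refine hHDC M ?_ hMc hMconn hMn
    intro a ha
    rcases hMS ha with h | ⟨b, hb, rfl⟩
    · exact Or.inl ((h1 a h).2.2 (h0 a ha))
    · exact Or.inr ⟨b, (h1 b hb).2.2 (show (rot b).2.2 = 0 from h0 (rot b) ha), rfl⟩
  · push Not at h0
    obtain ⟨a0, ha0, hne⟩ := h0
    have hpos : 0 < a0.2.2 := lt_of_le_of_ne (hlev a0 ha0) (Ne.symm hne)
    have hinf : M.Infinite := hMconn.isPreconnected.infinite_of_nontrivial hMn
    obtain ⟨b0, hb0, hb0n⟩ := hinf.exists_notMem_finite (hfin a0.2.2 hpos)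
    have hbne : b0.2.2 ≠ a0.2.2 := fun h => hb0n ⟨hb0, h⟩
    have hb0' := hlev b0 hb0
    set c : ℝ := (b0.2.2 + a0.2.2) / 2 with hc
    have hcpos : 0 < c := by
      rw [hc]
      linarith
    have hcont : Continuous (fun a : Amb => a.2.2) := continuous_snd.comp continuous_snd
    have hcl1 : IsClosed {a : Amb | a.2.2 ≤ c} := isClosed_le hcont continuous_const
    have hcl2 : IsClosed {a : Amb | c ≤ a.2.2} := isClosed_le continuous_const hcont
    refine hFIN Amb M (M ∩ {a | a.2.2 ≤ c}) (M ∩ {a | c ≤ a.2.2}) hMc hMconn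
      (hMc.inter_right hcl1) (hMc.inter_right hcl2) ?_ ?_ ?_ ?_
    · ext a
      constructor
      · rintro (h | h)
        · exact h.1
        · exact h.1
      · intro h
        rcases le_total a.2.2 c with h' | h'
        · exact Or.inl ⟨h, h'⟩
        · exact Or.inr ⟨h, h'⟩
    · intro h
      have e1 : a0.2.2 ≤ c := (h.symm ▸ ha0 : a0 ∈ M ∩ {a | a.2.2 ≤ c}).2
      have e2 : b0.2.2 ≤ c := (h.symm ▸ hb0 : b0 ∈ M ∩ {a | a.2.2 ≤ c}).2
      apply hbne
      rw [hc] at e1 e2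
      linarith
    · intro h
      have e1 : c ≤ a0.2.2 := (h.symm ▸ ha0 : a0 ∈ M ∩ {a | c ≤ a.2.2}).2
      have e2 : c ≤ b0.2.2 := (h.symm ▸ hb0 : b0 ∈ M ∩ {a | c ≤ a.2.2}).2
      apply hbne
      rw [hc] at e1 e2
      linarith
    · refine (hfin c hcpos).subset ?_
      rintro a ⟨⟨ha, h3⟩, ⟨_, h4⟩⟩
      exact ⟨ha, le_antisymm h3 h4⟩

end Pool.Agent.DCC
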