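import Pool.Agent.DCC.Targets

set_option autoImplicit false

namespace Pool.Agent.DCC

open Set

/-- the intersection of a nonempty chain of compact connected sets through `x` is connected -/
lemma IRR_chain {X : Type} [TopologicalSpace X] [T2Space X] (c : Set (Set X)) (x : X)
    (hne : c.Nonempty) (hc : IsChain (· ⊆ ·) c) (h1 : ∀ L ∈ c, IsCompact L)
    (h2 : ∀ L ∈ c, IsConnected L) (h3 : ∀ L ∈ c, x ∈ L) :
    IsCompact (⋂₀ c) ∧ IsConnected (⋂₀ c) := by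
  obtain ⟨L0, hL0⟩ := hne
  have hcl : IsClosed (⋂₀ c) := isClosed_sInter (fun L hL => (h1 L hL).isClosed)
  have hcp : IsCompact (⋂₀ c) :=
    (h1 L0 hL0).of_isClosed_subset hcl (sInter_subset_of_mem hL0)
  refine ⟨hcp, ⟨x, mem_sInter.2 h3⟩, ?_⟩
  rw [isPreconnected_closed_iff]
  intro t t' ht ht' htt' hn hn'
  by_contra hemp
  rw [not_nonempty_iff_eq_empty] at hemp
  have hA : IsCompact (⋂₀ c ∩ t) := hcp.inter_right ht
  have hB : IsCompact (⋂₀ c ∩ t') := hcp.inter_right ht'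
  have hd : Disjoint (⋂₀ c ∩ t) (⋂₀ c ∩ t') := by
    rw [Set.disjoint_left]
    intro z hz hz'
    have : z ∈ ⋂₀ c ∩ (t ∩ t') := ⟨hz.1, hz.2, hz'.2⟩
    rw [hemp] at this
    exact this
  obtain ⟨U, V, hU, hV, hAU, hBV, hUV⟩ := SeparatedNhds.of_isCompact_isCompact hA hB hd
  have : Nonempty c := ⟨⟨L0, hL0⟩⟩
  have hdir : Directed (· ⊇ ·) (fun L : c => (L : Set X)) := by
    intro a b
    rcases hc.total a.2 b.2 with h | h
    · exact ⟨a, le_rfl, h⟩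
    · exact ⟨b, h, le_rfl⟩
  obtain ⟨L, hL⟩ := exists_subset_nhds_of_isCompact (V := fun L : c => (L : Set X)) hdir
    (fun L => h1 L L.2) (U := U ∪ V) (by
      intro z hz
      have hz' : z ∈ ⋂₀ c := by
        rw [sInter_eq_iInter]
        exact hz
      refine (hU.union hV).mem_nhds ?_
      rcases htt' hz' with h | h
      · exact Or.inl (hAU ⟨hz', h⟩)
      · exact Or.inr (hBV ⟨hz', h⟩))
  have hLc := (h2 L L.2).isPreconnected
  obtain ⟨z, hz⟩ := hn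
  obtain ⟨z', hz'⟩ := hn'
  obtain ⟨w, hw⟩ := hLc U V hU hV hL ⟨z, hz.1 L L.2, hAU hz⟩ ⟨z', hz'.1 L L.2, hBV hz'⟩
  exact (Set.disjoint_left.1 hUV) hw.2.1 hw.2.2

theorem t_IRR : T_IRR := by
  intro X _ _ K x y hK hKc hx hy
  obtain ⟨K', hK', hmin⟩ := zorn_superset_nonempty
    {L : Set X | L ⊆ K ∧ IsCompact L ∧ IsConnected L ∧ x ∈ L ∧ y ∈ L}
    (by
      intro c hcS hc hne
      obtain ⟨L0, hL0⟩ := hne
      have h := IRR_chain c x ⟨L0, hL0⟩ hc (fun L hL => (hcS hL).2.1)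
        (fun L hL => (hcS hL).2.2.1) (fun L hL => (hcS hL).2.2.2.1)
      refine ⟨⋂₀ c, ⟨(sInter_subset_of_mem hL0).trans (hcS hL0).1, h.1, h.2,
        mem_sInter.2 (fun L hL => (hcS hL).2.2.2.1),
        mem_sInter.2 (fun L hL => (hcS hL).2.2.2.2)⟩, fun s hs => sInter_subset_of_mem hs⟩)
    K ⟨Subset.rfl, hK, hKc, hx, hy⟩
  have hm := hmin.prop
  refine ⟨K', hK', hm.2.1, hm.2.2.1, hm.2.2.2.1, hm.2.2.2.2, ?_⟩
  intro L hL hL1 hL2 hL3 hL4
  exact Subset.antisymm hL (hmin.le_of_le ⟨hL.trans hK', hL1, hL2, hL3, hL4⟩ hL)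

end Pool.Agent.DCC
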