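import Pool.Agent.DCC.Targets

/-!
# DCC, LEV: the points at a positive level
-/

set_option autoImplicit false

open Set Topology

namespace Pool.Agent.DCC

namespace LEV_

theorem ray_lev {x : ℕ → ℕ → Circle} {a : Amb} (ha : a ∈ ray x) :
    ∃ (n : ℕ) (t : ℝ), 1 ≤ n ∧ (n : ℝ) ≤ t ∧ t ≤ n + 1 ∧ 1 ≤ t ∧ a.2.2 = 1 / t ∧
      a = pt (x n) (1 - Real.cos (2 * Real.pi * t)) (1 / t) := by
  obtain ⟨n, hn, t, ⟨ht1, ht2⟩, h⟩ := ha
  have h1 : (1 : ℝ) ≤ n := by exact_mod_cast hn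
  refine ⟨n, t, hn, ht1, ht2, h1.trans ht1, ?_, h⟩
  rw [h]
  rfl

theorem core_lev {a : Amb} (ha : a ∈ core) : a.2.2 = 0 := by
  obtain ⟨w, -, u, -, h⟩ := ha
  rw [h]
  rfl

theorem cos_nat (n : ℕ) : Real.cos (2 * Real.pi * ((n : ℝ) + 1)) = 1 := by
  have h : 2 * Real.pi * ((n : ℝ) + 1) = ((n + 1 : ℕ) : ℝ) * (2 * Real.pi) := by
    push_cast
    ring
  rw [h]
  exact Real.cos_nat_mul_two_pi (n + 1)

theorem same (hPI : T_PI) {x : ℕ → ℕ → Circle} (hx : Good x) {n m : ℕ} {t : ℝ}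
    (h2 : t ≤ n + 1) (h3 : (m : ℝ) ≤ t) (h : n < m) (ρ : ℝ) :
    pt (x n) (1 - Real.cos (2 * Real.pi * t)) ρ =
      pt (x m) (1 - Real.cos (2 * Real.pi * t)) ρ := by
  have h4 : (n : ℝ) + 1 ≤ m := by exact_mod_cast h
  have h5 : t = (n : ℝ) + 1 := by linarith
  rw [h5, cos_nat, sub_self]
  exact hPI.1 _ (hx.1 n) _ (hx.1 m) ρ

end LEV_

open LEV_ in
theorem t_LEV (hPI : T_PI) : T_LEV := by
  intro x hx
  refine ⟨?_, ?_⟩
  · rintro a (ha | ha)
    · rw [core_lev ha]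
      exact ⟨le_rfl, zero_le_one, fun _ => ha⟩
    · obtain ⟨n, t, -, -, -, ht, h, -⟩ := ray_lev ha
      have ht0 : 0 < t := by linarith
      rw [h]
      refine ⟨by positivity, (div_le_one ht0).2 ht, fun h0 => ?_⟩
      exfalso
      have : 0 < 1 / t := by positivity
      linarith
  · intro a ha b hb h0 hab
    have ha' : a ∈ ray x := by
      rcases ha with ha | ha
      · rw [core_lev ha] at h0
        exact absurd h0 (lt_irrefl _)
      · exact ha
    have hb' : b ∈ ray x := by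
      rcases hb with hb | hb
      · rw [hab, core_lev hb] at h0
        exact absurd h0 (lt_irrefl _)
      · exact hb
    obtain ⟨n, t, -, hn1, hn2, ht, hta, ha⟩ := ray_lev ha'
    obtain ⟨m, s, -, hm1, hm2, hs, hsb, hb⟩ := ray_lev hb'
    have hts : t = s := by
      rw [hta, hsb, one_div, one_div] at hab
      exact inv_injective hab
    subst hts
    rw [ha, hb]
    rcases lt_trichotomy n m with h | h | h
    · exact same hPI hx hn2 hm1 h _
    · rw [h]
    · exact (same hPI hx hm2 hn1 h _).symm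

end Pool.Agent.DCC
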