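import Pool.Agent.DCC.Targets

/-!
# MAIN: assembly
-/

set_option autoImplicit false

open Set Topology

namespace Pool.Agent.DCC

section transfer

variable {X : Type} [TopologicalSpace X] {S : Set X}

lemma image_pre {N : Set X} (h : N ⊆ S) : (Subtype.val '' ((Subtype.val : S → X) ⁻¹' N)) = N := by
  rw [Subtype.image_preimage_coe]
  exact inter_eq_right.2 h

lemma cpt_image {M : Set S} : IsCompact (Subtype.val '' M) ↔ IsCompact M :=
  (IsInducing.subtypeVal.isCompact_iff).symm

lemma con_image {M : Set S} : IsConnected (Subtype.val '' M) ↔ IsConnected M := by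
  unfold IsConnected
  rw [IsInducing.subtypeVal.isPreconnected_image, image_nonempty]

lemma cpt_pre {N : Set X} (h : N ⊆ S) : IsCompact ((Subtype.val : S → X) ⁻¹' N) ↔ IsCompact N := by
  rw [← cpt_image, image_pre h]

lemma con_pre {N : Set X} (h : N ⊆ S) :
    IsConnected ((Subtype.val : S → X) ⁻¹' N) ↔ IsConnected N := by
  rw [← con_image, image_pre h]

lemma sub_of_mem {M : Set S} : Subtype.val '' M ⊆ S := by
  rintro _ ⟨a, _, rfl⟩
  exact a.2

lemma pre_image {M : Set S} : (Subtype.val : S → X) ⁻¹' (Subtype.val '' M) = M :=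
  preimage_image_eq _ Subtype.val_injective

end transfer

theorem t_MAIN (hSEQ : T_SEQ) (hIRR : T_IRR) (hSI : T_SI) (hXC : T_XC) (hYC : T_YC)
    (hCOV : T_COV) : T_MAIN := by
  intro h
  obtain ⟨x, hx⟩ := hSEQ
  obtain ⟨hXK, hXconn, hXpair⟩ := hXC x hx
  obtain ⟨F, -, hFloc, hFsur⟩ := hCOV x hx
  obtain ⟨p, hp, q, hq, hPQ⟩ := hYC x hx
  obtain ⟨hS1, hS2, hS3, hS4⟩ := hSI
  haveI : TopologicalSpace.MetrizableSpace Amb := inferInstance
  letI mX : MetricSpace (bigX x) := TopologicalSpace.metrizableSpaceMetric (bigX x)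
  letI mY : MetricSpace (bigY x) := TopologicalSpace.metrizableSpaceMetric (bigY x)
  haveI : CompactSpace (bigX x) := isCompact_iff_compactSpace.1 hXK
  haveI : ConnectedSpace (bigX x) := isConnected_iff_connectedSpace.1 hXconn
  have hY := h (bigX x) (bigY x) F hFloc hFsur ?_
  · obtain ⟨K, hKc, hKconn, hpK, hqK, -, hKHD⟩ := hY ⟨p, hp⟩ ⟨q, hq⟩
    have hsol : solY ⊆ Subtype.val '' K :=
      hPQ (Subtype.val '' K) sub_of_mem (cpt_image.2 hKc) (con_image.2 hKconn)
        ⟨_, hpK, rfl⟩ ⟨_, hqK, rfl⟩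
    have hsolY : solY ⊆ bigY x := hsol.trans sub_of_mem
    obtain ⟨A, B, hA, hB, hAM, hBM, hAc, hAconn, hBc, hBconn, hAB⟩ :=
      hKHD ((Subtype.val : bigY x → Amb) ⁻¹' solY)
        (by
          intro a ha
          obtain ⟨k, hk, hka⟩ := hsol ha
          have : k = a := Subtype.ext hka
          rw [← this]
          exact hk)
        ((cpt_pre hsolY).2 hS1) ((con_pre hsolY).2 hS2)
        (by
          obtain ⟨a, ha, b, hb, hab⟩ := hS3
          exact ⟨⟨a, hsolY ha⟩, ha, ⟨b, hsolY hb⟩, hb, fun h => hab (congrArg Subtype.val h)⟩)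
    apply hS4
    refine ⟨Subtype.val '' A, Subtype.val '' B, ?_, ?_, ?_, ?_, cpt_image.2 hAc,
      con_image.2 hAconn, cpt_image.2 hBc, con_image.2 hBconn, ?_⟩
    · rintro _ ⟨a, ha, rfl⟩
      exact hA ha
    · rintro _ ⟨a, ha, rfl⟩
      exact hB ha
    · intro heq
      apply hAM
      rw [← heq, pre_image]
    · intro heq
      apply hBM
      rw [← heq, pre_image]
    · rw [← image_union, hAB, image_pre hsolY]
  · intro a b
    obtain ⟨K, hKX, hKc, hKconn, haK, hbK, hKHD⟩ := hXpair a.1 a.2 b.1 b.2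
    obtain ⟨K', hK'K, hK'c, hK'conn, haK', hbK', hmin⟩ := hIRR Amb K a.1 b.1 hKc hKconn haK hbK
    have hK'X : K' ⊆ bigX x := hK'K.trans hKX
    refine ⟨(Subtype.val : bigX x → Amb) ⁻¹' K', (cpt_pre hK'X).2 hK'c, (con_pre hK'X).2 hK'conn,
      haK', hbK', ?_, ?_⟩
    · intro L hL hLc hLconn haL hbL
      have : Subtype.val '' L = K' := by
        apply hmin _ _ (cpt_image.2 hLc) (con_image.2 hLconn) ⟨_, haL, rfl⟩ ⟨_, hbL, rfl⟩
        rintro _ ⟨c, hc, rfl⟩
        exact hL hc
      rw [← this, pre_image]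
    · intro M hM hMc hMconn hMn
      obtain ⟨A, B, hA, hB, hAM, hBM, hAc, hAconn, hBc, hBconn, hAB⟩ :=
        hKHD (Subtype.val '' M)
          (by
            rintro _ ⟨c, hc, rfl⟩
            exact hK'K (hM hc))
          (cpt_image.2 hMc) (con_image.2 hMconn)
          (hMn.image Subtype.val_injective)
      have hAX : A ⊆ bigX x := hA.trans sub_of_mem
      have hBX : B ⊆ bigX x := hB.trans sub_of_mem
      refine ⟨Subtype.val ⁻¹' A, Subtype.val ⁻¹' B, ?_, ?_, ?_, ?_, (cpt_pre hAX).2 hAc,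
        (con_pre hAX).2 hAconn, (cpt_pre hBX).2 hBc, (con_pre hBX).2 hBconn, ?_⟩
      · intro c hc
        have := hA hc
        obtain ⟨d, hd, hdc⟩ := this
        rwa [← Subtype.ext hdc]
      · intro c hc
        have := hB hc
        obtain ⟨d, hd, hdc⟩ := this
        rwa [← Subtype.ext hdc]
      · intro heq
        apply hAM
        rw [← heq, image_pre hAX]
      · intro heq
        apply hBM
        rw [← heq, image_pre hBX]
      · rw [← preimage_union, hAB, pre_image]

end Pool.Agent.DCC
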