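import Pool.Agent.DCC.Targets

/-!
# NI: a proper subcontinuum with interior points gives a decomposition
-/

set_option autoImplicit false

open Set Topology

namespace Pool.Agent.DCC

/-- a closed set is preconnected iff it is not the union of two disjoint nonempty closed sets -/
lemma not_preconn {X : Type} [TopologicalSpace X] {R : Set X} (hR : IsClosed R)
    (h : ¬ IsPreconnected R) : ∃ U V : Set X, IsClosed U ∧ IsClosed V ∧ U ∪ V = R ∧
      Disjoint U V ∧ U.Nonempty ∧ V.Nonempty := by
  rw [isPreconnected_closed_iff] at h
  push Not at h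
  obtain ⟨t, t', ht, ht', hsub, h1, h2, h3⟩ := h
  refine ⟨R ∩ t, R ∩ t', hR.inter ht, hR.inter ht', ?_, ?_, h1, h2⟩
  · rw [← inter_union_distrib_left]
    exact inter_eq_left.2 hsub
  · rw [Set.disjoint_iff]
    intro x hx
    have : x ∈ R ∩ (t ∩ t') := ⟨hx.1.1, hx.1.2, hx.2.2⟩
    rw [h3] at this
    exact this

theorem t_NI : T_NI := by
  intro X _ _ M N O hM hMc hN hNc hNM hne hO hOM hON
  have hMcl := hM.isClosed
  have hNcl := hN.isClosed
  set R : Set X := closure (M \ N) with hRdef
  have hRcl : IsClosed R := isClosed_closure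
  have hRM : R ⊆ M := closure_minimal sdiff_subset hMcl
  have hRO : R ⊆ Oᶜ := by
    refine closure_minimal ?_ hO.isClosed_compl
    intro x hx hxO
    exact hx.2 (hON ⟨hxO, hx.1⟩)
  have hRne : R ≠ M := by
    intro h
    obtain ⟨x, hxO, hxM⟩ := hOM
    rw [← h] at hxM
    exact hRO hxM hxO
  have hNR : N ∪ R = M := by
    apply Subset.antisymm (union_subset hNM hRM)
    intro x hx
    by_cases hxN : x ∈ N
    · exact Or.inl hxN
    · exact Or.inr (subset_closure ⟨hx, hxN⟩)
  have hMN : (M \ N).Nonempty := by
    rw [nonempty_iff_ne_empty]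
    intro h
    exact hne (Subset.antisymm hNM (sdiff_eq_empty.1 h))
  have hRne' : R.Nonempty := hMN.mono subset_closure
  have hRK : IsCompact R := hM.of_isClosed_subset hRcl hRM
  by_cases hRc : IsPreconnected R
  · exact ⟨N, R, hNM, hRM, hne, hRne, hN, hNc, hRK, ⟨hRne', hRc⟩, hNR⟩
  · obtain ⟨U, V, hU, hV, hUV, hdis, hUne, hVne⟩ := not_preconn hRcl hRc
    have key : ∀ U V : Set X, IsClosed U → IsClosed V → U ∪ V = R → Disjoint U V → U.Nonempty →
        V.Nonempty → IsCompact (N ∪ U) ∧ IsConnected (N ∪ U) ∧ N ∪ U ≠ M ∧ N ∪ U ⊆ M := by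
      intro U V hU hV hUV hdis hUne hVne
      have hUR : U ⊆ R := by rw [← hUV]; exact subset_union_left
      have hVR : V ⊆ R := by rw [← hUV]; exact subset_union_right
      have hsub : N ∪ U ⊆ M := union_subset hNM (hUR.trans hRM)
      refine ⟨hN.union (hM.of_isClosed_subset hU (hUR.trans hRM)), ⟨hNc.nonempty.inl, ?_⟩, ?_,
        hsub⟩
      · by_contra hcon
        obtain ⟨G, H, hG, hH, hGH, hGHd, hGne, hHne⟩ := not_preconn (hNcl.union hU) hcon
        -- one of the two parts contains N
        have main : ∀ G H : Set X, IsClosed G → IsClosed H → G ∪ H = N ∪ U → Disjoint G H →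
            G.Nonempty → H.Nonempty → N ⊆ G → False := by
          intro G H hG hH hGH hGHd hGne hHne hNG
          have hHU : H ⊆ U := by
            intro x hx
            have : x ∈ N ∪ U := by rw [← hGH]; exact Or.inr hx
            rcases this with h | h
            · exact absurd (hNG h) (fun h' => Set.disjoint_left.1 hGHd h' hx)
            · exact h
          have hdis2 : Disjoint H (G ∪ V) := by
            rw [Set.disjoint_union_right]
            exact ⟨hGHd.symm, hdis.mono_left hHU⟩
          have hcov : M ⊆ H ∪ (G ∪ V) := by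
            intro x hx
            rw [← hNR, ← hUV] at hx
            rcases hx with h | h | h
            · exact Or.inr (Or.inl (hNG h))
            · have : x ∈ G ∪ H := by rw [hGH]; exact Or.inr h
              rcases this with h' | h'
              · exact Or.inr (Or.inl h')
              · exact Or.inl h'
            · exact Or.inr (Or.inr h)
          have hMp := hMc.isPreconnected
          rw [isPreconnected_closed_iff] at hMp
          have hHM : H ⊆ M := hHU.trans (hUR.trans hRM)
          have hGM : G ⊆ M := by
            intro x hx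
            apply hsub
            rw [← hGH]
            exact Or.inl hx
          obtain ⟨x, hx, hx1, hx2⟩ := hMp H (G ∪ V) hH (hG.union hV) hcov
            (by obtain ⟨y, hy⟩ := hHne; exact ⟨y, hHM hy, hy⟩)
            (by obtain ⟨y, hy⟩ := hGne; exact ⟨y, hGM hy, Or.inl hy⟩)
          exact Set.disjoint_left.1 hdis2 hx1 hx2
        have hNp := hNc.isPreconnected
        have hNsub : N ⊆ G ∪ H := by rw [hGH]; exact subset_union_left
        rw [isPreconnected_closed_iff] at hNp
        by_cases h1 : (N ∩ G).Nonempty
        · by_cases h2 : (N ∩ H).Nonempty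
          · obtain ⟨x, _, hx1, hx2⟩ := hNp G H hG hH hNsub h1 h2
            exact Set.disjoint_left.1 hGHd hx1 hx2
          · refine main G H hG hH hGH hGHd hGne hHne ?_
            intro x hx
            rcases hNsub hx with h | h
            · exact h
            · exact absurd ⟨x, hx, h⟩ h2
        · refine main H G hH hG (by rw [union_comm]; exact hGH) hGHd.symm hHne hGne ?_
          intro x hx
          rcases hNsub hx with h | h
          · exact absurd ⟨x, hx, h⟩ h1
          · exact h
      · intro heq
        -- V is contained in N, but V is open in R and M \ N is dense in R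
        have hVN : V ⊆ N := by
          intro x hx
          have : x ∈ N ∪ U := by rw [heq]; exact hRM (hVR hx)
          rcases this with h | h
          · exact h
          · exact absurd hx (Set.disjoint_left.1 hdis h)
        obtain ⟨x, hx⟩ := hVne
        have hxR : x ∈ closure (M \ N) := hVR hx
        have hUo : IsOpen Uᶜ := hU.isOpen_compl
        have hxU : x ∈ Uᶜ := fun h => Set.disjoint_left.1 hdis h hx
        rw [mem_closure_iff] at hxR
        obtain ⟨y, hyU, hyM, hyN⟩ := hxR Uᶜ hUo hxU
        have hyR : y ∈ R := subset_closure ⟨hyM, hyN⟩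
        rw [← hUV] at hyR
        rcases hyR with h | h
        · exact hyU h
        · exact hyN (hVN h)
    obtain ⟨a1, a2, a3, a4⟩ := key U V hU hV hUV hdis hUne hVne
    obtain ⟨b1, b2, b3, b4⟩ := key V U hV hU (by rw [union_comm]; exact hUV) hdis.symm hVne hUne
    refine ⟨N ∪ U, N ∪ V, a4, b4, a3, b3, a1, a2, b1, b2, ?_⟩
    rw [← hNR, ← hUV]
    ext x
    simp only [mem_union]
    tauto

end Pool.Agent.DCC
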