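import Pool.Agent.DCC.Targets

/-!
# DCC-PC: continuity of `pt`, `rot` and `cub`
-/

set_option autoImplicit false

open Set Topology

namespace Pool.Agent.DCC

namespace PC_

theorem zt_cube (k : ℕ) : (zt k) ^ 3 = 1 := by
  have h : (Circle.exp (2 * Real.pi / 3)) ^ 3 = 1 := by
    have h1 : Circle.exp (2 * Real.pi / 3) ^ 3 = Circle.exp (3 * (2 * Real.pi / 3)) := by
      have e1 : (3 : ℝ) * (2 * Real.pi / 3) = 2 * Real.pi / 3 + 2 * Real.pi / 3 +
        2 * Real.pi / 3 := by ring
      rw [e1, Circle.exp_add, Circle.exp_add, pow_succ, pow_two]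
    rw [h1]
    have e2 : (3 : ℝ) * (2 * Real.pi / 3) = 2 * Real.pi := by ring
    rw [e2, Circle.exp_two_pi]
  unfold zt
  rw [← pow_mul, Nat.mul_comm, pow_mul, h, one_pow]

theorem zt_cube' (k : ℕ) : (zt k : ℂ) ^ 3 = 1 := by
  rw [← Circle.coe_pow, zt_cube, Circle.coe_one]

theorem cont_fl (k : ℕ) : Continuous fun τ : ℝ => fl τ k := by
  unfold fl
  exact Circle.exp.continuous.comp (by fun_prop)

end PC_

open PC_ in
theorem t_PC : T_PC := by
  refine ⟨?_, ?_, ?_, ?_, ?_, ?_⟩
  · unfold pt
    refine Continuous.prodMk (continuous_pi fun k => ?_) ?_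
    · refine Continuous.mul ?_ (Continuous.mul ?_ ?_)
      · refine Complex.continuous_ofReal.comp ?_
        by_cases hk : k = 0
        · simp only [hk, if_true]
          exact continuous_const
        · simp only [hk, if_false]
          exact (continuous_snd.fst).min continuous_const
      · exact continuous_subtype_val.comp ((continuous_apply k).comp continuous_fst)
      · refine continuous_subtype_val.comp ((cont_fl k).comp ?_)
        exact ((continuous_snd.fst).sub continuous_const).max continuous_const
    · refine Continuous.prodMk ?_ continuous_snd.snd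
      exact continuous_const.sub ((continuous_snd.fst).min continuous_const)
  · unfold rot
    refine Continuous.prodMk (continuous_pi fun k => ?_) continuous_snd
    exact continuous_const.mul ((continuous_apply k).comp continuous_fst)
  · unfold cub
    refine Continuous.prodMk (continuous_pi fun k => ?_) continuous_snd
    exact ((continuous_apply k).comp continuous_fst).pow 3
  · intro w u ρ
    unfold rot pt
    refine Prod.ext ?_ rfl
    funext k
    simp only [Pi.mul_apply, Circle.coe_mul]
    ring
  · intro a
    unfold rot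
    refine Prod.ext ?_ rfl
    funext k
    show (zt k : ℂ) * ((zt k : ℂ) * ((zt k : ℂ) * a.1 k)) = a.1 k
    have h : (zt k : ℂ) * ((zt k : ℂ) * ((zt k : ℂ) * a.1 k)) = (zt k : ℂ) ^ 3 * a.1 k := by ring
    rw [h, zt_cube', one_mul]
  · intro a
    unfold rot cub
    refine Prod.ext ?_ rfl
    funext k
    show ((zt k : ℂ) * a.1 k) ^ 3 = a.1 k ^ 3
    rw [mul_pow, zt_cube', one_mul]

end Pool.Agent.DCC
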