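import Pool.Agent.DCC.Targets

/-!
# Project DCC, PF: the fibres of the covering map
-/

set_option autoImplicit false

open Set Topology

namespace Pool.Agent.DCC

theorem PF_fin (a b : Amb) (j : ℕ) (hj : j < 3) (h1 : ∀ k, a.1 k = (zt k : ℂ) ^ j * b.1 k)
    (h2 : a.2 = b.2) : a = b ∨ a = rot b ∨ a = rot (rot b) := by
  interval_cases j
  · left
    refine Prod.ext (funext fun k => ?_) h2
    rw [h1 k]; ring
  · right; left
    refine Prod.ext (funext fun k => ?_) h2
    rw [h1 k]; simp [rot]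
  · right; right
    refine Prod.ext (funext fun k => ?_) h2
    rw [h1 k]; simp only [rot]; ring

theorem PF_root (hcube : ∀ w ∈ Sol, w ^ 3 = 1 → ∃ j : ℕ, j < 3 ∧ w = zt ^ j) (a : Circle)
    (ha : a ^ 3 = 1) : ∃ j : ℕ, j < 3 ∧ a = zt 0 ^ j := by
  have h1 : (fun k : ℕ => a ^ (2 ^ k)) ∈ Sol := by
    intro k
    show (a ^ (2 ^ (k + 1))) ^ 2 = a ^ (2 ^ k)
    have e : (2 : ℕ) ^ (k + 1) * 2 = 3 * 2 ^ k + 2 ^ k := by ring
    rw [← pow_mul, e, pow_add, pow_mul, ha, one_pow, one_mul]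
  have h2 : (fun k : ℕ => a ^ (2 ^ k)) ^ 3 = 1 := by
    funext k
    show (a ^ (2 ^ k)) ^ 3 = 1
    rw [← pow_mul, mul_comm, pow_mul, ha, one_pow]
  obtain ⟨j, hj, he⟩ := hcube _ h1 h2
  refine ⟨j, hj, ?_⟩
  have := congrFun he 0
  simpa using this

theorem t_PF (hSC : T_SC) : T_PF := by
  obtain ⟨_, _, hfl, _, hzt3, hmul, hinv, _, hcube⟩ := hSC
  intro w hw w' hw' u hu u' hu' ρ ρ' hw0 hw0' h
  have hA : ∀ k, (((if k = 0 then 1 else min u 1 : ℝ) : ℂ) *
      ((w k : ℂ) * (fl (max (u - 1) 0) k : ℂ))) ^ 3 =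
      (((if k = 0 then 1 else min u' 1 : ℝ) : ℂ) *
      ((w' k : ℂ) * (fl (max (u' - 1) 0) k : ℂ))) ^ 3 := by
    intro k
    exact congrFun (congrArg Prod.fst h) k
  have hB : 1 - min u 1 = 1 - min u' 1 := congrArg (fun a : Amb => a.2.1) h
  have hC : ρ = ρ' := congrArg (fun a : Amb => a.2.2) h
  have hs : min u 1 = min u' 1 := by linarith
  rcases eq_or_lt_of_le (le_min hu.1 zero_le_one) with h0 | h0
  · -- the apex
    have hu0 : u = 0 := by
      rcases le_total u 1 with h' | h'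
      · rw [min_eq_left h'] at h0; exact h0.symm
      · rw [min_eq_right h'] at h0; norm_num at h0
    have hu0' : u' = 0 := by
      rw [hs] at h0
      rcases le_total u' 1 with h' | h'
      · rw [min_eq_left h'] at h0; exact h0.symm
      · rw [min_eq_right h'] at h0; norm_num at h0
    subst hu0 hu0' hC
    have ha : (w 0 / w' 0) ^ 3 = 1 := by rw [div_pow, hw0, hw0', div_one]
    obtain ⟨j, hj, he⟩ := PF_root hcube _ ha
    refine PF_fin _ _ j hj (fun k => ?_) rfl
    have he' : (w 0 : ℂ) = (zt 0 : ℂ) ^ j * (w' 0 : ℂ) := by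
      have : w 0 = zt 0 ^ j * w' 0 := by rw [← he, div_mul_cancel]
      rw [this]; push_cast; rfl
    by_cases hk : k = 0
    · subst hk
      simp only [pt, if_true]
      rw [he']; ring
    · simp [pt, hk]
  · -- the legs
    have hq : ((w * fl (max (u - 1) 0)) * (w' * fl (max (u' - 1) 0))⁻¹) ^ 3 = 1 := by
      funext k
      have hc : (((if k = 0 then 1 else min u 1 : ℝ) : ℂ)) ^ 3 ≠ 0 := by
        apply pow_ne_zero
        by_cases hk : k = 0
        · simp [hk]
        · simp only [hk, if_false]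
          exact_mod_cast h0.ne'
      have hk := hA k
      rw [← hs, mul_pow, mul_pow (((if k = 0 then 1 else min u 1 : ℝ) : ℂ)) ((w' k : ℂ) * (fl (max (u' - 1) 0) k : ℂ))] at hk
      have hk' := mul_left_cancel₀ hc hk
      have hk2 : (w k * fl (max (u - 1) 0) k) ^ 3 = (w' k * fl (max (u' - 1) 0) k) ^ 3 := by
        apply Circle.ext
        push_cast
        exact hk'
      show (w k * fl (max (u - 1) 0) k * (w' k * fl (max (u' - 1) 0) k)⁻¹) ^ 3 = 1
      rw [mul_pow, hk2, inv_pow, mul_inv_cancel]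
    obtain ⟨j, hj, he⟩ := hcube _ (hmul _ (hmul _ hw _ (hfl _)) _
      (hinv _ (hmul _ hw' _ (hfl _)))) hq
    refine PF_fin _ _ j hj (fun k => ?_) (Prod.ext hB hC)
    have hk : w k * fl (max (u - 1) 0) k = zt k ^ j * (w' k * fl (max (u' - 1) 0) k) := by
      have := congrFun he k
      change w k * fl (max (u - 1) 0) k * (w' k * fl (max (u' - 1) 0) k)⁻¹ = zt k ^ j at this
      rw [← this, inv_mul_cancel_right]
    have hk' : (w k : ℂ) * (fl (max (u - 1) 0) k : ℂ) =
        (zt k : ℂ) ^ j * ((w' k : ℂ) * (fl (max (u' - 1) 0) k : ℂ)) := by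
      have := congrArg (fun z : Circle => (z : ℂ)) hk
      push_cast at this
      exact this
    simp only [pt]
    rw [hk', hs]; ring

end Pool.Agent.DCC
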