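import Pool.Agent.DCC.Defs

/-!
# Targets of project DCC
-/

set_option autoImplicit false

open Set Topology

namespace Pool.Agent.DCC

/-! ## general topology -/

/-- NI: a proper subcontinuum with interior points gives a decomposition -/
def T_NI : Prop := ∀ (X : Type) [TopologicalSpace X] [T2Space X] (M N O : Set X), IsCompact M →
  IsConnected M → IsCompact N → IsConnected N → N ⊆ M → N ≠ M → IsOpen O → (O ∩ M).Nonempty →
  O ∩ M ⊆ N → Decomp M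

/-- FIN: a continuum which is the union of two proper closed sets with finite intersection is
decomposable -/
def T_FIN : Prop := ∀ (X : Type) [TopologicalSpace X] [T2Space X] (M M1 M2 : Set X), IsCompact M →
  IsConnected M → IsCompact M1 → IsCompact M2 → M1 ∪ M2 = M → M1 ≠ M → M2 ≠ M →
  (M1 ∩ M2).Finite → Decomp M

/-- IRR: irreducible subcontinua exist -/
def T_IRR : Prop := ∀ (X : Type) [TopologicalSpace X] [T2Space X] (K : Set X) (x y : X),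
  IsCompact K → IsConnected K → x ∈ K → y ∈ K → ∃ K' : Set X, K' ⊆ K ∧ IsCompact K' ∧
    IsConnected K' ∧ x ∈ K' ∧ y ∈ K' ∧
    ∀ L : Set X, L ⊆ K' → IsCompact L → IsConnected L → x ∈ L → y ∈ L → L = K'

/-! ## the solenoid -/

/-- SC: compactness, the group structure, cube roots -/
def T_SC : Prop := IsCompact Sol ∧ IsCompact Sol0 ∧ (∀ τ : ℝ, fl τ ∈ Sol) ∧ zt ∈ Sol ∧
  (∀ k, zt k ^ 3 = 1) ∧ (∀ w ∈ Sol, ∀ w' ∈ Sol, w * w' ∈ Sol) ∧ (∀ w ∈ Sol, w⁻¹ ∈ Sol) ∧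
  (∀ z ∈ Sol0, ∃ w ∈ Sol0, w ^ 3 = z) ∧
  (∀ w ∈ Sol, w ^ 3 = 1 → ∃ j : ℕ, j < 3 ∧ w = zt ^ j)

/-- SEQ: a sequence with dense tails -/
def T_SEQ : Prop := ∃ x : ℕ → ℕ → Circle, Good x

/-- SI: the solenoid is an indecomposable continuum -/
def T_SI : Prop := IsCompact solY ∧ IsConnected solY ∧ solY.Nontrivial ∧ ¬ Decomp solY

/-! ## the fan -/

/-- PC: `pt` is continuous -/
def T_PC : Prop :=
  Continuous (fun q : (ℕ → Circle) × ℝ × ℝ => pt q.1 q.2.1 q.2.2) ∧ Continuous rot ∧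
  Continuous cub ∧ (∀ w u ρ, rot (pt w u ρ) = pt (zt * w) u ρ) ∧ (∀ a, rot (rot (rot a)) = a) ∧
  (∀ a, cub (rot a) = cub a)

/-- PI: injectivity of `pt` on the legs, the apex, and the way two consecutive fans meet -/
def T_PI : Prop :=
  (∀ w ∈ Sol0, ∀ w' ∈ Sol0, ∀ ρ : ℝ, pt w 0 ρ = pt w' 0 ρ) ∧
  (∀ (w : ℕ → Circle) (ρ ρ' : ℝ), ∀ u ∈ Icc (0 : ℝ) 2, ∀ u' ∈ Icc (0 : ℝ) 2,
    pt w u ρ = pt w u' ρ' → u = u' ∧ ρ = ρ') ∧
  (∀ w ∈ Sol0, ∀ w' ∈ Sol0, ∀ u ∈ Icc (0 : ℝ) 2, ∀ u' ∈ Icc (0 : ℝ) 2, ∀ ρ ρ' : ℝ, 0 < u →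
    pt w u ρ = pt w' u' ρ' → w = w' ∧ u = u' ∧ ρ = ρ') ∧
  (∀ w ∈ Sol0, ∀ w' ∈ Sol0, ∀ u ∈ Icc (0 : ℝ) 2, ∀ u' ∈ Icc (0 : ℝ) 2, ∀ ρ ρ' : ℝ,
    pt w u ρ = pt (w' * fl 1) u' ρ' → w = w' ∧ u = 2 ∧ u' = 1 ∧ ρ = ρ') ∧
  (∀ w : ℕ → Circle, ∀ ρ : ℝ, pt w 2 ρ = pt (w * fl 1) 1 ρ) ∧
  (∀ w ∈ Sol0, ∃ w' ∈ Sol0, zt * w = w' * fl 1) ∧
  (∀ w ∈ Sol0, ∃ w' ∈ Sol0, w * fl 1 = zt * w')

/-- PF: fibres of the covering map -/
def T_PF : Prop := ∀ w ∈ Sol, ∀ w' ∈ Sol, ∀ u ∈ Icc (0 : ℝ) 2, ∀ u' ∈ Icc (0 : ℝ) 2,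
  ∀ ρ ρ' : ℝ, w 0 ^ 3 = 1 → w' 0 ^ 3 = 1 → cub (pt w u ρ) = cub (pt w' u' ρ') →
  pt w u ρ = pt w' u' ρ' ∨ pt w u ρ = rot (pt w' u' ρ') ∨ pt w u ρ = rot (rot (pt w' u' ρ'))

/-- SHC: a sheet is a continuum -/
def T_SHC : Prop := ∀ x, Good x → IsCompact (sheet x) ∧ IsConnected (sheet x)

/-- CLR: the ray accumulates on the whole fan -/
def T_CLR : Prop := ∀ x, Good x → core ⊆ closure (ray x)

/-- LEV: the points at a positive level: one point of a sheet -/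
def T_LEV : Prop := ∀ x, Good x → (∀ a ∈ sheet x, 0 ≤ a.2.2 ∧ a.2.2 ≤ 1 ∧ (a.2.2 = 0 → a ∈ core)) ∧
  ∀ a ∈ sheet x, ∀ b ∈ sheet x, 0 < a.2.2 → a.2.2 = b.2.2 → a = b

/-- CIN: the solenoid is contained in the image of the fan -/
def T_CIN : Prop := solY ⊆ cub '' core

/-! ## main steps -/

/-- HDC: two consecutive fans form a hereditarily decomposable set -/
def T_HDC : Prop := HD (core ∪ rot '' core)

/-- HDS: two consecutive sheets form a hereditarily decomposable set -/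
def T_HDS : Prop := ∀ x, Good x → HD (sheet x ∪ rot '' sheet x)

/-- XC: any two points of `X` lie in a hereditarily decomposable subcontinuum -/
def T_XC : Prop := ∀ x, Good x → IsCompact (bigX x) ∧ IsConnected (bigX x) ∧
  ∀ a ∈ bigX x, ∀ b ∈ bigX x, ∃ K : Set Amb, K ⊆ bigX x ∧ IsCompact K ∧ IsConnected K ∧
    a ∈ K ∧ b ∈ K ∧ HD K

/-- YC: the two bad points of `Y` -/
def T_YC : Prop := ∀ x, Good x → ∃ p ∈ bigY x, ∃ q ∈ bigY x, ∀ K : Set Amb, K ⊆ bigY x →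
  IsCompact K → IsConnected K → p ∈ K → q ∈ K → solY ⊆ K

/-- COV: the covering map is a local homeomorphism of `X` onto `Y` -/
def T_COV : Prop := ∀ x, Good x → ∃ F : bigX x → bigY x, (∀ a, (F a : Amb) = cub a) ∧
  IsLocalHomeomorph F ∧ Function.Surjective F

/-- MAIN -/
def T_MAIN : Prop :=
  ¬ (∀ (X Y : Type) [MetricSpace X] [MetricSpace Y] [CompactSpace X] [ConnectedSpace X]
      (f : X → Y), IsLocalHomeomorph f → Function.Surjective f →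
      (∀ x y : X, ∃ K : Set X, IsCompact K ∧ IsConnected K ∧ x ∈ K ∧ y ∈ K ∧
        (∀ L : Set X, L ⊆ K → IsCompact L → IsConnected L → x ∈ L → y ∈ L → L = K) ∧
        (∀ M : Set X, M ⊆ K → IsCompact M → IsConnected M → M.Nontrivial →
          ∃ A B : Set X, A ⊆ M ∧ B ⊆ M ∧ A ≠ M ∧ B ≠ M ∧ IsCompact A ∧ IsConnected A ∧
            IsCompact B ∧ IsConnected B ∧ A ∪ B = M)) →
      (∀ x y : Y, ∃ K : Set Y, IsCompact K ∧ IsConnected K ∧ x ∈ K ∧ y ∈ K ∧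
        (∀ L : Set Y, L ⊆ K → IsCompact L → IsConnected L → x ∈ L → y ∈ L → L = K) ∧
        (∀ M : Set Y, M ⊆ K → IsCompact M → IsConnected M → M.Nontrivial →
          ∃ A B : Set Y, A ⊆ M ∧ B ⊆ M ∧ A ≠ M ∧ B ≠ M ∧ IsCompact A ∧ IsConnected A ∧
            IsCompact B ∧ IsConnected B ∧ A ∪ B = M)))

end Pool.Agent.DCC
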