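import Mathlib
import Pool.Agent.DCC.Targets

set_option autoImplicit false

open Set Topology

namespace Pool.Agent.DCC

namespace PI_

lemma fl_zero (k : ℕ) : fl 0 k = 1 := by
  simp [fl]

lemma fl_zero_coord (τ : ℝ) : fl τ 0 = Circle.exp (2 * Real.pi * τ / 3) := by
  simp [fl]

lemma exp_inj_of {a b : ℝ} (hab : a ≤ b) (hb : b < a + 3)
    (h : Circle.exp (2 * Real.pi * a / 3) = Circle.exp (2 * Real.pi * b / 3)) : a = b := by
  rw [Circle.exp_eq_exp] at h
  obtain ⟨m, hm⟩ := h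
  have hpi := Real.pi_pos
  have h1 : a = b + 3 * m := by
    have : 2 * Real.pi * (a - b - 3 * m) = 0 := by linarith
    rcases mul_eq_zero.mp this with h2 | h2
    · linarith
    · linarith
  have h2 : (m : ℝ) ≤ 0 := by linarith
  have h3 : (-1 : ℝ) < m := by linarith
  have h4 : m ≤ 0 := by exact_mod_cast h2
  have h5 : -1 < m := by exact_mod_cast h3
  have h6 : m = 0 := by omega
  rw [h6] at h1
  simpa using h1

lemma pt_eq {w w' : ℕ → Circle} {u u' ρ ρ' : ℝ} (h : pt w u ρ = pt w' u' ρ') :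
    ρ = ρ' ∧ min u 1 = min u' 1 ∧
    w 0 * fl (max (u - 1) 0) 0 = w' 0 * fl (max (u' - 1) 0) 0 ∧
    (min u 1 ≠ 0 → ∀ k, w k * fl (max (u - 1) 0) k = w' k * fl (max (u' - 1) 0) k) := by
  unfold pt at h
  rw [Prod.mk.injEq, Prod.mk.injEq] at h
  obtain ⟨h1, h2, h3⟩ := h
  have h2' : min u 1 = min u' 1 := by linarith
  have h0 : w 0 * fl (max (u - 1) 0) 0 = w' 0 * fl (max (u' - 1) 0) 0 := by
    have := congrFun h1 0
    simp only [if_true, Complex.ofReal_one, one_mul] at this
    apply Circle.ext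
    rw [Circle.coe_mul, Circle.coe_mul]
    exact this
  refine ⟨h3, h2', h0, fun hne k => ?_⟩
  rcases Nat.eq_zero_or_pos k with hk | hk
  · rw [hk]; exact h0
  · have := congrFun h1 k
    simp only [if_neg hk.ne', h2'] at this
    rw [h2'] at hne
    have hne' : ((min u' 1 : ℝ) : ℂ) ≠ 0 := by exact_mod_cast hne
    have := mul_left_cancel₀ hne' this
    apply Circle.ext
    rw [Circle.coe_mul, Circle.coe_mul]
    exact this

lemma u_eq {u u' : ℝ} (h1 : min u 1 = min u' 1) (h2 : max (u - 1) 0 = max (u' - 1) 0) :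
    u = u' := by
  rcases le_total u 1 with h | h <;> rcases le_total u' 1 with h' | h'
  · rwa [min_eq_left h, min_eq_left h'] at h1
  · rw [min_eq_left h, min_eq_right h'] at h1
    rw [max_eq_right (by linarith), max_eq_left (by linarith)] at h2
    linarith
  · rw [min_eq_right h, min_eq_left h'] at h1
    rw [max_eq_left (by linarith), max_eq_right (by linarith)] at h2
    linarith
  · rw [max_eq_left (by linarith), max_eq_left (by linarith)] at h2
    linarith

lemma tau_mem {u : ℝ} (hu : u ∈ Icc (0 : ℝ) 2) : 0 ≤ max (u - 1) 0 ∧ max (u - 1) 0 ≤ 1 :=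
  ⟨le_max_right _ _, max_le (by linarith [hu.2]) zero_le_one⟩

lemma tau_eq {τ τ' : ℝ} (h : 0 ≤ τ ∧ τ ≤ 1) (h' : 0 ≤ τ' ∧ τ' ≤ 1)
    (he : Circle.exp (2 * Real.pi * τ / 3) = Circle.exp (2 * Real.pi * τ' / 3)) : τ = τ' := by
  rcases le_total τ τ' with hh | hh
  · exact exp_inj_of hh (by linarith [h.1, h'.2]) he
  · exact (exp_inj_of hh (by linarith [h'.1, h.2]) he.symm).symm

end PI_

open PI_

theorem t_PI (hSC : T_SC) : T_PI := by
  obtain ⟨-, -, hfl, hzt, -, hmul, hinv, -, -⟩ := hSC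
  refine ⟨?_, ?_, ?_, ?_, ?_, ?_, ?_⟩
  · intro w hw w' hw' ρ
    unfold pt
    refine Prod.ext (funext fun k => ?_) rfl
    rcases Nat.eq_zero_or_pos k with hk | hk
    · subst hk
      simp only [hw.2, hw'.2]
    · simp [hk.ne']
  · intro w ρ ρ' u hu u' hu' h
    obtain ⟨h1, h2, h3, -⟩ := pt_eq h
    have h4 := mul_left_cancel h3
    rw [fl_zero_coord, fl_zero_coord] at h4
    exact ⟨u_eq h2 (tau_eq (tau_mem hu) (tau_mem hu') h4), h1⟩
  · intro w hw w' hw' u hu u' hu' ρ ρ' hpos h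
    obtain ⟨h1, h2, h3, h4⟩ := pt_eq h
    rw [hw.2, hw'.2, one_mul, one_mul, fl_zero_coord, fl_zero_coord] at h3
    have h5 := tau_eq (tau_mem hu) (tau_mem hu') h3
    have h6 := u_eq h2 h5
    refine ⟨funext fun k => ?_, h6, h1⟩
    have h7 := h4 (lt_min hpos one_pos).ne' k
    rw [h5] at h7
    exact mul_right_cancel h7
  · intro w hw w' hw' u hu u' hu' ρ ρ' h
    obtain ⟨h1, h2, h3, h4⟩ := pt_eq h
    have ht := tau_mem hu
    have ht' := tau_mem hu'
    have h5 : max (u - 1) 0 = 1 + max (u' - 1) 0 := by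
      rw [Pi.mul_apply, hw.2, hw'.2, one_mul, one_mul, fl_zero_coord, fl_zero_coord,
        fl_zero_coord, ← Circle.exp_add] at h3
      refine exp_inj_of (by linarith [ht.2, ht'.1])
        (by linarith [ht.1, ht'.2]) ?_
      rw [h3]
      congr 1
      ring
    have h6 : max (u - 1) 0 = 1 := le_antisymm ht.2 (by linarith [ht'.1])
    have h7 : max (u' - 1) 0 = 0 := by linarith
    have h8 : u = 2 := by
      rcases le_total (u - 1) 0 with h | h
      · rw [max_eq_right h] at h6; norm_num at h6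
      · rw [max_eq_left h] at h6; linarith
    have h9 : min u 1 = 1 := by rw [h8]; norm_num
    have h10 : u' = 1 := by
      rw [h9] at h2
      have h11 : 1 ≤ u' := by
        have := min_le_left u' (1 : ℝ)
        linarith
      have h12 := le_max_left (u' - 1) (0 : ℝ)
      linarith
    refine ⟨funext fun k => ?_, h8, h10, h1⟩
    have h13 := h4 (by rw [h9]; exact one_ne_zero) k
    rw [h6, h7, fl_zero, mul_one, Pi.mul_apply] at h13
    exact mul_right_cancel h13
  · intro w ρ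
    unfold pt
    have e1 : min (2 : ℝ) 1 = 1 := by norm_num
    have e2 : max ((2 : ℝ) - 1) 0 = 1 := by norm_num
    have e3 : max ((1 : ℝ) - 1) 0 = 0 := by norm_num
    rw [e1, e2, e3, min_self]
    refine Prod.ext (funext fun k => ?_) rfl
    simp only [fl_zero, Pi.mul_apply, Circle.coe_mul, Circle.coe_one, mul_one]
  · intro w hw
    refine ⟨zt * w * (fl 1)⁻¹, ⟨hmul _ (hmul _ hzt _ hw.1) _ (hinv _ (hfl 1)), ?_⟩, ?_⟩
    · simp only [Pi.mul_apply, Pi.inv_apply, hw.2, mul_one, zt, fl, pow_zero, pow_one]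
      rw [mul_inv_cancel]
    · rw [inv_mul_cancel_right]
  · intro w hw
    refine ⟨w * fl 1 * zt⁻¹, ⟨hmul _ (hmul _ hw.1 _ (hfl 1)) _ (hinv _ hzt), ?_⟩, ?_⟩
    · simp only [Pi.mul_apply, Pi.inv_apply, hw.2, one_mul, zt, fl, pow_zero, pow_one, mul_one]
      rw [mul_inv_cancel]
    · rw [mul_comm zt, inv_mul_cancel_right]

end Pool.Agent.DCC
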