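import Pool.Agent.DCC.Targets

/-!
# DCC: the dyadic solenoid, compactness, group structure, cube roots
-/

set_option autoImplicit false

open Set Topology

namespace Pool.Agent.DCC

namespace SC_

theorem closed_sol : IsClosed Sol := by
  have h : Sol = ⋂ k : ℕ, {w : ℕ → Circle | w (k + 1) ^ 2 = w k} := by
    ext w
    simp [Sol]
  rw [h]
  exact isClosed_iInter fun k =>
    isClosed_eq ((continuous_apply (k + 1)).pow 2) (continuous_apply k)

theorem closed_sol0 : IsClosed Sol0 := by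
  have h : Sol0 = Sol ∩ {w : ℕ → Circle | w 0 = 1} := rfl
  rw [h]
  exact closed_sol.inter (isClosed_eq (continuous_apply 0) continuous_const)

theorem fl_mem (τ : ℝ) : fl τ ∈ Sol := by
  intro k
  simp only [fl]
  rw [sq, ← Circle.exp_add]
  congr 1
  rw [pow_succ]
  field_simp
  ring

theorem coe_z : ((Circle.exp (2 * Real.pi / 3) : Circle) : ℂ) =
    Complex.exp (2 * Real.pi * Complex.I / (3 : ℕ)) := by
  rw [Circle.coe_exp]
  congr 1
  push_cast
  ring

theorem prim : IsPrimitiveRoot ((Circle.exp (2 * Real.pi / 3) : Circle) : ℂ) 3 := by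
  rw [coe_z]
  exact Complex.isPrimitiveRoot_exp 3 (by norm_num)

theorem z_cube : (Circle.exp (2 * Real.pi / 3) : Circle) ^ 3 = 1 := by
  apply Circle.ext
  have h := prim.pow_eq_one
  rw [← Circle.coe_pow] at h
  rw [h, Circle.coe_one]

theorem zt_cube (k : ℕ) : zt k ^ 3 = 1 := by
  simp only [zt]
  rw [← pow_mul, mul_comm (2 ^ k) 3, pow_mul, z_cube, one_pow]

theorem zt_mem : zt ∈ Sol := by
  intro k
  simp only [zt]
  rw [← pow_mul]
  have h : 2 ^ (k + 1) * 2 = 3 * 2 ^ k + 2 ^ k := by ring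
  rw [h, pow_add, pow_mul, z_cube, one_pow, one_mul]

theorem root (x : Circle) (hx : x ^ 3 = 1) :
    ∃ j : ℕ, j < 3 ∧ x = Circle.exp (2 * Real.pi / 3) ^ j := by
  have h1 : (x : ℂ) ^ 3 = 1 := by
    have := congrArg (fun y : Circle => (y : ℂ)) hx
    simpa using this
  obtain ⟨j, hj, hjx⟩ := prim.eq_pow_of_pow_eq_one h1
  refine ⟨j, hj, Circle.ext ?_⟩
  rw [← hjx, Circle.coe_pow]

/-- the cube root -/
noncomputable def cr (z : ℕ → Circle) : ℕ → Circle
  | 0 => 1
  | k + 1 => z (k + 1) / cr z k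

theorem cr_cube (z : ℕ → Circle) (hz : z ∈ Sol0) (k : ℕ) : cr z k ^ 3 = z k := by
  induction k with
  | zero => simp only [cr]; rw [one_pow, hz.2]
  | succ k ih =>
    have h1 : z (k + 1) ^ 2 = z k := hz.1 k
    simp only [cr]
    rw [div_pow, ih, ← h1, div_eq_iff_eq_mul]
    rw [← pow_succ']

theorem cr_sq (z : ℕ → Circle) (hz : z ∈ Sol0) (k : ℕ) : cr z (k + 1) ^ 2 = cr z k := by
  have h1 : z (k + 1) ^ 2 = z k := hz.1 k
  simp only [cr]
  rw [div_pow, h1, ← cr_cube z hz k, div_eq_iff_eq_mul, ← pow_succ']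

end SC_

open SC_ in
theorem t_SC : T_SC := by
  refine ⟨closed_sol.isCompact, closed_sol0.isCompact, fl_mem, zt_mem, zt_cube, ?_, ?_, ?_, ?_⟩
  · intro w hw w' hw' k
    rw [Pi.mul_apply, Pi.mul_apply, mul_pow, hw k, hw' k]
  · intro w hw k
    rw [Pi.inv_apply, Pi.inv_apply, inv_pow, hw k]
  · intro z hz
    exact ⟨cr z, ⟨cr_sq z hz, rfl⟩, funext fun k => cr_cube z hz k⟩
  · intro w hw h3
    have h3' : ∀ k, w k ^ 3 = 1 := fun k => congrFun h3 k
    obtain ⟨j, hj, hj0⟩ := root (w 0) (h3' 0)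
    have hk : ∀ k, w k = w 0 ^ (2 ^ k) := by
      intro k
      induction k with
      | zero => simp
      | succ k ih =>
        have h4 : w (k + 1) = w k ^ 2 := by
          have h5 : w (k + 1) ^ 4 = w (k + 1) := by
            rw [pow_succ, h3' (k + 1), one_mul]
          rw [← hw k, ← pow_mul]
          exact h5.symm
        rw [h4, ih, ← pow_mul, pow_succ]
    refine ⟨j, hj, funext fun k => ?_⟩
    rw [hk k, hj0, Pi.pow_apply]
    simp only [zt]
    rw [← pow_mul, ← pow_mul, mul_comm j]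

end Pool.Agent.DCC
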