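import Pool.Agent.DCC.Targets

/-!
Project DCC, piece SEQ: a sequence with dense tails.
-/

set_option autoImplicit false

open Set Topology

namespace Pool.Agent.DCC

theorem t_SEQ : T_SEQ := by
  have h1 : (1 : ℕ → Circle) ∈ Sol0 := by
    refine ⟨fun k => ?_, rfl⟩
    simp
  haveI : Nonempty Sol0 := ⟨⟨1, h1⟩⟩
  obtain ⟨d, hd⟩ := TopologicalSpace.exists_dense_seq Sol0
  refine ⟨fun n => (d (Nat.unpair n).1 : ℕ → Circle), fun n => (d (Nat.unpair n).1).2, ?_⟩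
  intro w hw U hU hwU N
  have hopen : IsOpen ((Subtype.val : Sol0 → (ℕ → Circle)) ⁻¹' U) :=
    hU.preimage continuous_subtype_val
  obtain ⟨m, hm⟩ := hd.exists_mem_open hopen ⟨⟨w, hw⟩, hwU⟩
  refine ⟨Nat.pair m N, Nat.right_le_pair m N, ?_⟩
  show (d (Nat.unpair (Nat.pair m N)).1 : ℕ → Circle) ∈ U
  rw [Nat.unpair_pair]
  exact hm

end Pool.Agent.DCC
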