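import Pool.Agent.DCC.Targets

/-!
# Target SHC: a sheet is a continuum
-/

set_option autoImplicit false

open Set Topology

namespace Pool.Agent.DCC

/-- the map of a piece is continuous -/
theorem shc_cont (hPC : T_PC) (w : ℕ → Circle) (n : ℕ) (hn : 1 ≤ n) :
    ContinuousOn (fun t : ℝ => pt w (1 - Real.cos (2 * Real.pi * t)) (1 / t))
      (Icc (n : ℝ) (n + 1)) := by
  have hc := hPC.1
  have h2 : ContinuousOn (fun t : ℝ => ((w, 1 - Real.cos (2 * Real.pi * t), 1 / t) :
      (ℕ → Circle) × ℝ × ℝ)) (Icc (n : ℝ) (n + 1)) := by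
    refine continuousOn_const.prodMk (ContinuousOn.prodMk ?_ ?_)
    · exact (by fun_prop : Continuous (fun t : ℝ => 1 - Real.cos (2 * Real.pi * t))).continuousOn
    · refine continuousOn_const.div continuousOn_id ?_
      intro t ht
      have h1 : (1 : ℝ) ≤ n := by exact_mod_cast hn
      have : (0 : ℝ) < t := by linarith [ht.1]
      exact this.ne'
  exact hc.comp_continuousOn h2

/-- a piece is the image of the interval -/
theorem shc_image (x : ℕ → ℕ → Circle) (n : ℕ) :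
    rayp x n = (fun t : ℝ => pt (x n) (1 - Real.cos (2 * Real.pi * t)) (1 / t)) ''
      (Icc (n : ℝ) (n + 1)) := by
  ext a
  constructor
  · rintro ⟨t, ht, rfl⟩
    exact ⟨t, ht, rfl⟩
  · rintro ⟨t, ht, rfl⟩
    exact ⟨t, ht, rfl⟩

theorem shc_compact (hPC : T_PC) (x : ℕ → ℕ → Circle) (n : ℕ) (hn : 1 ≤ n) :
    IsCompact (rayp x n) := by
  rw [shc_image]
  exact isCompact_Icc.image_of_continuousOn (shc_cont hPC (x n) n hn)

theorem shc_conn (hPC : T_PC) (x : ℕ → ℕ → Circle) (n : ℕ) (hn : 1 ≤ n) :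
    IsConnected (rayp x n) := by
  rw [shc_image]
  refine IsConnected.image ?_ _ (shc_cont hPC (x n) n hn)
  exact isConnected_Icc (by linarith)

/-- the ray as a union of pieces -/
theorem shc_ray (x : ℕ → ℕ → Circle) : ray x = ⋃ n : ℕ, rayp x (n + 1) := by
  ext a
  simp only [ray, Set.mem_ofPred_eq, mem_iUnion]
  constructor
  · rintro ⟨n, hn, h⟩
    refine ⟨n - 1, ?_⟩
    rwa [Nat.sub_add_cancel hn]
  · rintro ⟨n, h⟩
    exact ⟨n + 1, by omega, h⟩

theorem shc_rayconn (hPC : T_PC) (hPI : T_PI) (x : ℕ → ℕ → Circle) (hx : Good x) :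
    IsConnected (ray x) := by
  rw [shc_ray]
  refine IsConnected.iUnion_of_chain (fun n => shc_conn hPC x (n + 1) (by omega)) ?_
  intro n
  have hcos : Real.cos (2 * Real.pi * ((n : ℝ) + 2)) = 1 := by
    have := Real.cos_nat_mul_two_pi (n + 2)
    rw [← this]
    congr 1
    push_cast
    ring
  refine ⟨pt (x (n + 1)) 0 (1 / ((n : ℝ) + 2)), ?_, ?_⟩
  · refine ⟨(n : ℝ) + 2, ?_, ?_⟩
    · constructor
      · push_cast
        linarith
      · push_cast
        linarith
    · rw [hcos, sub_self]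
  · show pt (x (n + 1)) 0 (1 / ((n : ℝ) + 2)) ∈ rayp x (n + 1 + 1)
    refine ⟨(n : ℝ) + 2, ?_, ?_⟩
    · constructor
      · push_cast
        linarith
      · push_cast
        linarith
    · rw [hcos, sub_self]
      exact hPI.1 _ (hx.1 _) _ (hx.1 _) _

/-- the compact set of all levels -/
theorem shc_S (hPC : T_PC) (hSC : T_SC) :
    IsCompact ((fun q : (ℕ → Circle) × ℝ × ℝ => pt q.1 q.2.1 q.2.2) ''
      (Sol0 ×ˢ (Icc (0 : ℝ) 2 ×ˢ Icc (0 : ℝ) 1))) :=
  (hSC.2.1.prod (isCompact_Icc.prod isCompact_Icc)).image hPC.1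

theorem shc_sub (x : ℕ → ℕ → Circle) (hx : Good x) :
    sheet x ⊆ (fun q : (ℕ → Circle) × ℝ × ℝ => pt q.1 q.2.1 q.2.2) ''
      (Sol0 ×ˢ (Icc (0 : ℝ) 2 ×ˢ Icc (0 : ℝ) 1)) := by
  rintro a (⟨w, hw, u, hu, rfl⟩ | ⟨n, hn, t, ht, rfl⟩)
  · exact ⟨(w, u, 0), ⟨hw, hu, ⟨le_refl _, zero_le_one⟩⟩, rfl⟩
  · have h1 : (1 : ℝ) ≤ n := by exact_mod_cast hn
    have h2 : (1 : ℝ) ≤ t := le_trans h1 ht.1
    refine ⟨(x n, 1 - Real.cos (2 * Real.pi * t), 1 / t), ⟨hx.1 n, ⟨?_, ?_⟩, ⟨?_, ?_⟩⟩, rfl⟩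
    · show (0 : ℝ) ≤ 1 - Real.cos (2 * Real.pi * t)
      linarith [Real.cos_le_one (2 * Real.pi * t)]
    · show 1 - Real.cos (2 * Real.pi * t) ≤ (2 : ℝ)
      linarith [Real.neg_one_le_cos (2 * Real.pi * t)]
    · show (0 : ℝ) ≤ 1 / t
      positivity
    · show 1 / t ≤ (1 : ℝ)
      rw [div_le_one (by linarith)]
      exact h2

theorem shc_closed (hPC : T_PC) (hSC : T_SC) (x : ℕ → ℕ → Circle) (hx : Good x) :
    IsClosed (sheet x) := by
  refine isClosed_of_closure_subset ?_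
  intro a ha
  have hS := (shc_S hPC hSC).isClosed
  have haS := closure_minimal (shc_sub x hx) hS ha
  obtain ⟨⟨w, u, ρ⟩, ⟨hw, hu, hρ⟩, hae⟩ := haS
  simp only at hw hu hρ hae
  rcases eq_or_lt_of_le hρ.1 with h0 | h0
  · left
    refine ⟨w, hw, u, hu, ?_⟩
    rw [← hae, h0]
  · right
    obtain ⟨N, hN⟩ := exists_nat_ge (2 / ρ)
    have hcl : IsClosed ({b : Amb | b.2.2 ≤ ρ / 2} ∪ ⋃ n ∈ Finset.range N, rayp x (n + 1)) := by
      refine IsClosed.union ?_ ?_
      · exact isClosed_le (by fun_prop) continuous_const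
      · refine isClosed_biUnion_finset ?_
        intro n _
        exact (shc_compact hPC x (n + 1) (by omega)).isClosed
    have hsub : sheet x ⊆ {b : Amb | b.2.2 ≤ ρ / 2} ∪ ⋃ n ∈ Finset.range N, rayp x (n + 1) := by
      rintro b (⟨w', _, u', _, rfl⟩ | ⟨n, hn, hb⟩)
      · left
        show (0 : ℝ) ≤ ρ / 2
        linarith
      · by_cases hnN : n ≤ N
        · right
          simp only [mem_iUnion, Finset.mem_range]
          refine ⟨n - 1, by omega, ?_⟩
          rwa [Nat.sub_add_cancel hn]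
        · left
          obtain ⟨t, ht, rfl⟩ := hb
          show 1 / t ≤ ρ / 2
          have h1 : (N : ℝ) ≤ n := by
            have : N ≤ n := by omega
            exact_mod_cast this
          have h2 : 2 / ρ ≤ t := le_trans hN (le_trans h1 ht.1)
          have h3 : 0 < 2 / ρ := by positivity
          have h4 : 1 / t ≤ 1 / (2 / ρ) := one_div_le_one_div_of_le h3 h2
          rwa [one_div_div] at h4
    have hin := closure_minimal hsub hcl ha
    rcases hin with h | h
    · exfalso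
      have h5 : a.2.2 ≤ ρ / 2 := h
      rw [← hae] at h5
      have h6 : ρ ≤ ρ / 2 := h5
      linarith
    · simp only [mem_iUnion, Finset.mem_range] at h
      obtain ⟨n, _, hb⟩ := h
      exact ⟨n + 1, by omega, hb⟩

theorem t_SHC (hPC : T_PC) (hPI : T_PI) (hSC : T_SC) (hCLR : T_CLR) : T_SHC := by
  intro x hx
  refine ⟨?_, ?_⟩
  · exact (shc_S hPC hSC).of_isClosed_subset (shc_closed hPC hSC x hx) (shc_sub x hx)
  · refine (shc_rayconn hPC hPI x hx).subset_closure subset_union_right ?_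
    exact union_subset (hCLR x hx) subset_closure

end Pool.Agent.DCC
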