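import Pool.Agent.DCC.Targets

/-!
# DCC-SI: the solenoid is an indecomposable continuum
-/

set_option autoImplicit false

open Set Topology

namespace Pool.Agent.DCC

/-- the embedding of the solenoid -/
private noncomputable def emb (z : ℕ → Circle) : Amb := (fun k => (z k : ℂ), 0, 0)

private theorem emb_cont : Continuous emb := by
  unfold emb
  refine Continuous.prodMk ?_ continuous_const
  exact continuous_pi (fun k => continuous_subtype_val.comp (continuous_apply k))

private theorem solY_eq : solY = emb '' Sol := by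
  ext a
  constructor
  · rintro ⟨z, hz, rfl⟩
    exact ⟨z, hz, rfl⟩
  · rintro ⟨z, hz, rfl⟩
    exact ⟨z, hz, rfl⟩

private theorem sol_pow {w : ℕ → Circle} (hw : w ∈ Sol) (j m : ℕ) : w j = w (j + m) ^ (2 ^ m) := by
  induction m with
  | zero => simp
  | succ m ih =>
    have h := hw (j + m)
    rw [ih, ← h, ← pow_mul, ← pow_succ']
    rfl

private theorem sol_pow' {w : ℕ → Circle} (hw : w ∈ Sol) {j k : ℕ} (h : j ≤ k) :
    w j = w k ^ (2 ^ (k - j)) := by
  have := sol_pow hw j (k - j)
  rwa [Nat.add_sub_cancel' h] at this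

private theorem fl_cont : Continuous fl := by
  unfold fl
  refine continuous_pi (fun k => ?_)
  exact Circle.exp.continuous.comp (by fun_prop)

private theorem tendsto_of_agree {z : ℕ → Circle} (hz : z ∈ Sol) (y : ℕ → ℕ → Circle)
    (hy : ∀ k, y k ∈ Sol) (hk : ∀ k, y k k = z k) :
    Filter.Tendsto y Filter.atTop (𝓝 z) := by
  rw [tendsto_pi_nhds]
  intro j
  apply tendsto_const_nhds.congr'
  filter_upwards [Filter.eventually_ge_atTop j] with k hjk
  rw [sol_pow' hz hjk, sol_pow' (hy k) hjk, hk k]

private theorem local_out {A : Set Amb} (hA : IsCompact A) {z : ℕ → Circle} (hz : z ∈ Sol)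
    (hzA : emb z ∉ A) : ∃ k : ℕ, ∀ z' ∈ Sol, z' k = z k → emb z' ∉ A := by
  by_contra hcon
  push Not at hcon
  choose y hy1 hy2 hy3 using hcon
  have h1 := tendsto_of_agree hz y hy1 hy2
  have h2 : Filter.Tendsto (fun k => emb (y k)) Filter.atTop (𝓝 (emb z)) :=
    (emb_cont.tendsto z).comp h1
  exact hzA (hA.isClosed.mem_of_tendsto h2 (Filter.Eventually.of_forall hy3))

theorem t_SI (hSC : T_SC) : T_SI := by
  obtain ⟨hc, -, hfl, -, -, hmul, -, -, -⟩ := hSC
  have hcomp : IsCompact solY := by
    rw [solY_eq]
    exact hc.image emb_cont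
  have hconn : IsConnected Sol := by
    have h1 : IsConnected (Set.range fl) := by
      rw [← Set.image_univ]
      exact isConnected_univ.image fl fl_cont.continuousOn
    refine h1.subset_closure ?_ ?_
    · rintro _ ⟨t, rfl⟩
      exact hfl t
    · intro z hz
      have hex : ∀ k : ℕ, ∃ t : ℝ, fl t k = z k := by
        intro k
        refine ⟨Complex.arg (z k) / (2 * Real.pi) * (3 * 2 ^ k), ?_⟩
        have h2 : 2 * Real.pi * (Complex.arg (z k) / (2 * Real.pi) * (3 * 2 ^ k)) / (3 * 2 ^ k) =
            Complex.arg (z k) := by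
          have : (Real.pi : ℝ) ≠ 0 := Real.pi_ne_zero
          field_simp
        rw [fl, h2, Circle.exp_arg]
      choose t ht using hex
      have h3 := tendsto_of_agree hz (fun k => fl (t k)) (fun k => hfl _) ht
      exact mem_closure_of_tendsto h3 (Filter.Eventually.of_forall (fun k => ⟨t k, rfl⟩))
  have hconnY : IsConnected solY := by
    rw [solY_eq]
    exact hconn.image emb emb_cont.continuousOn
  -- points with coordinate `-1`
  have hneg : ∀ n : ℕ, ∃ u ∈ Sol, ((u n : Circle) : ℂ) = -1 := by
    intro n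
    refine ⟨fl (3 * 2 ^ n / 2), hfl _, ?_⟩
    have h2 : 2 * Real.pi * (3 * 2 ^ n / 2) / (3 * 2 ^ n) = Real.pi := by
      field_simp
    rw [fl, h2, Circle.coe_exp, Complex.exp_pi_mul_I]
  refine ⟨hcomp, hconnY, ?_, ?_⟩
  · obtain ⟨u, hu, hu1⟩ := hneg 0
    have h0 := hfl 0
    rw [solY_eq]
    refine ⟨emb u, ⟨u, hu, rfl⟩, emb (fl 0), ⟨fl 0, h0, rfl⟩, ?_⟩
    intro h
    have h1 : ((u 0 : Circle) : ℂ) = ((fl 0 0 : Circle) : ℂ) := congrArg (fun a : Amb => a.1 0) h
    rw [hu1] at h1
    simp [fl] at h1
    norm_num at h1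
  · rintro ⟨A, B, hAs, hBs, hAn, hBn, hAc, hAconn, hBc, -, hAB⟩
    have hexA : ∃ z ∈ Sol, emb z ∉ A := by
      by_contra hcon
      push Not at hcon
      apply hAn
      apply Set.Subset.antisymm hAs
      rw [solY_eq]
      rintro _ ⟨z, hz, rfl⟩
      exact hcon z hz
    have hexB : ∃ z ∈ Sol, emb z ∉ B := by
      by_contra hcon
      push Not at hcon
      apply hBn
      apply Set.Subset.antisymm hBs
      rw [solY_eq]
      rintro _ ⟨z, hz, rfl⟩
      exact hcon z hz
    obtain ⟨z, hz, hzA⟩ := hexA
    obtain ⟨z', hz', hzB⟩ := hexB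
    obtain ⟨k, hk⟩ := local_out hAc hz hzA
    obtain ⟨k', hk'⟩ := local_out hBc hz' hzB
    have hinA : ∀ x ∈ Sol, emb x ∉ B → emb x ∈ A := by
      intro x hx hxB
      have : emb x ∈ A ∪ B := by
        rw [hAB, solY_eq]
        exact ⟨x, hx, rfl⟩
      rcases this with h | h
      · exact h
      · exact absurd h hxB
    set n := max k k' + 1 with hn
    obtain ⟨u, hu, hun⟩ := hneg n
    have hu2 : (u n) ^ 2 = 1 := by
      apply Circle.ext
      rw [Circle.coe_pow, hun]
      simp
    have heven : ∀ (q : Circle) (j : ℕ), j < n → q ^ 2 = 1 → q ^ (2 ^ (n - j)) = 1 := by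
      intro q j hj hq
      obtain ⟨m, hm⟩ : ∃ m, n - j = m + 1 := ⟨n - j - 1, by omega⟩
      rw [hm, pow_succ', pow_mul, hq, one_pow]
    have hzu : emb (z' * u) ∈ A := by
      apply hinA _ (hmul z' hz' u hu)
      apply hk' _ (hmul z' hz' u hu)
      have : u k' = 1 := by
        rw [sol_pow' hu (show k' ≤ n by omega)]
        exact heven _ _ (by omega) hu2
      rw [Pi.mul_apply, this, mul_one]
    have hz'A : emb z' ∈ A := hinA z' hz' hzB
    set phi : Amb → ℝ := fun a => (a.1 n * (starRingEnd ℂ) ((z n : Circle) : ℂ)).im with hphi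
    have hphic : Continuous phi := by
      rw [hphi]
      apply Complex.continuous_im.comp
      exact ((continuous_apply n).comp continuous_fst).mul continuous_const
    have hne : ∀ a ∈ A, phi a ≠ 0 := by
      intro a ha h0
      have haY := hAs ha
      rw [solY_eq] at haY
      obtain ⟨x, hx, rfl⟩ := haY
      have h1 : (((x n) * (z n)⁻¹ : Circle) : ℂ).im = 0 := by
        rw [Circle.coe_mul, Circle.coe_inv_eq_conj]
        exact h0
      set q := (x n) * (z n)⁻¹ with hq
      have hn1 : Complex.normSq (q : ℂ) = 1 := Circle.normSq_coe q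
      rw [Complex.normSq_apply, h1] at hn1
      have hre : ((q : ℂ).re - 1) * ((q : ℂ).re + 1) = 0 := by linarith
      have hq2 : q ^ 2 = 1 := by
        apply Circle.ext
        rw [Circle.coe_pow]
        have hqr : (q : ℂ) = ((q : ℂ).re : ℂ) := by
          apply Complex.ext
          · simp
          · simp [h1]
        rw [hqr]
        rcases mul_eq_zero.1 hre with h | h
        · have : (q : ℂ).re = 1 := by linarith
          rw [this]
          simp
        · have : (q : ℂ).re = -1 := by linarith
          rw [this]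
          simp
      have hxk : x k = z k := by
        have hxn : x n = q * z n := by
          rw [hq]
          simp
        rw [sol_pow' hx (show k ≤ n by omega), sol_pow' hz (show k ≤ n by omega), hxn, mul_pow,
          heven q k (by omega) hq2, one_mul]
      exact hk x hx hxk ha
    have hopp : phi (emb (z' * u)) = - phi (emb z') := by
      simp only [hphi, emb, Pi.mul_apply, Circle.coe_mul, hun]
      simp
    have hpre := hAconn.isPreconnected
    rcases le_or_gt (phi (emb z')) 0 with h | h
    · have := hpre.intermediate_value hz'A hzu hphic.continuousOn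
      have h0 : (0 : ℝ) ∈ Set.Icc (phi (emb z')) (phi (emb (z' * u))) := by
        rw [hopp]
        constructor <;> linarith
      obtain ⟨a, ha, ha0⟩ := this h0
      exact hne a ha ha0
    · have := hpre.intermediate_value hzu hz'A hphic.continuousOn
      have h0 : (0 : ℝ) ∈ Set.Icc (phi (emb (z' * u))) (phi (emb z')) := by
        rw [hopp]
        constructor <;> linarith
      obtain ⟨a, ha, ha0⟩ := this h0
      exact hne a ha ha0

end Pool.Agent.DCC
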