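import Pool.Agent.DCC.Targets

/-!
# Any two points of `X` lie in a hereditarily decomposable subcontinuum
-/

set_option autoImplicit false

open Set Topology

namespace Pool.Agent.DCC

namespace XC_

theorem decomp_image {X : Type} [TopologicalSpace X] {g : X → X} (hg : Continuous g)
    (hi : Function.Injective g) {M : Set X} (h : Decomp M) : Decomp (g '' M) := by
  obtain ⟨A, B, hA, hB, hAM, hBM, hAc, hAn, hBc, hBn, hU⟩ := h
  refine ⟨g '' A, g '' B, image_mono hA, image_mono hB, ?_, ?_, hAc.image hg,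
    hAn.image g hg.continuousOn, hBc.image hg, hBn.image g hg.continuousOn, ?_⟩
  · exact fun e => hAM (image_injective.2 hi e)
  · exact fun e => hBM (image_injective.2 hi e)
  · rw [← image_union, hU]

theorem rot3 (hPC : T_PC) (S : Set Amb) : rot '' (rot '' (rot '' S)) = S := by
  obtain ⟨-, -, -, -, h3, -⟩ := hPC
  ext a
  constructor
  · rintro ⟨_, ⟨_, ⟨b, hb, rfl⟩, rfl⟩, rfl⟩
    rw [h3]
    exact hb
  · intro ha
    exact ⟨_, ⟨_, ⟨a, ha, rfl⟩, rfl⟩, h3 a⟩

theorem rot_inj (hPC : T_PC) : Function.Injective rot := by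
  obtain ⟨-, -, -, -, h3, -⟩ := hPC
  intro a b h
  rw [← h3 a, ← h3 b, h]

theorem hd_rot (hPC : T_PC) {K : Set Amb} (h : HD K) : HD (rot '' K) := by
  have hc := hPC.2.1
  intro M hM hMc hMn hMt
  have h1 : rot '' (rot '' M) ⊆ K := by
    rw [← rot3 hPC K]
    exact image_mono (image_mono hM)
  have h2 := h (rot '' (rot '' M)) h1 ((hMc.image hc).image hc)
    ((hMn.image rot hc.continuousOn).image rot hc.continuousOn)
    ((hMt.image (rot_inj hPC)).image (rot_inj hPC))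
  have h3 := decomp_image hc (rot_inj hPC) h2
  rwa [rot3 hPC] at h3

theorem meet (hPC : T_PC) (hPI : T_PI) (x : ℕ → ℕ → Circle) :
    (sheet x ∩ rot '' sheet x).Nonempty := by
  have h1 : (1 : ℕ → Circle) ∈ Sol0 := ⟨fun k => by simp, by simp⟩
  obtain ⟨-, -, -, hrot, -, -⟩ := hPC
  obtain ⟨-, -, -, -, h5, -, h7⟩ := hPI
  obtain ⟨w', hw', he⟩ := h7 1 h1
  refine ⟨pt 1 2 0, Or.inl ⟨1, h1, 2, ⟨by norm_num, le_refl _⟩, rfl⟩, ?_⟩
  rw [h5, he, ← hrot]
  exact ⟨_, Or.inl ⟨w', hw', 1, ⟨by norm_num, by norm_num⟩, rfl⟩, rfl⟩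

end XC_

open XC_ in
theorem t_XC (hSHC : T_SHC) (hHDS : T_HDS) (hPC : T_PC) (hPI : T_PI) : T_XC := by
  intro x hx
  have hc := hPC.2.1
  obtain ⟨hS, hSn⟩ := hSHC x hx
  obtain ⟨K, hK⟩ : ∃ K, K = sheet x ∪ rot '' sheet x := ⟨_, rfl⟩
  have hKc : IsCompact K := by
    rw [hK]
    exact hS.union (hS.image hc)
  have hKn : IsConnected K := by
    rw [hK]
    exact IsConnected.union (meet hPC hPI x) hSn (hSn.image rot hc.continuousOn)
  have hKd : HD K := by
    rw [hK]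
    exact hHDS x hx
  have hK1 : rot '' K = rot '' sheet x ∪ rot '' (rot '' sheet x) := by
    rw [hK, image_union]
  have hK2 : rot '' (rot '' K) = rot '' (rot '' sheet x) ∪ sheet x := by
    rw [hK1, image_union, rot3 hPC]
  have hK1c : IsCompact (rot '' K) := hKc.image hc
  have hK1n : IsConnected (rot '' K) := hKn.image rot hc.continuousOn
  have hK2c : IsCompact (rot '' (rot '' K)) := hK1c.image hc
  have hK2n : IsConnected (rot '' (rot '' K)) := hK1n.image rot hc.continuousOn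
  have hK1d : HD (rot '' K) := hd_rot hPC hKd
  have hK2d : HD (rot '' (rot '' K)) := hd_rot hPC hK1d
  have hX : bigX x = sheet x ∪ rot '' K := by
    rw [hK1]
    rfl
  have hXK : K ⊆ bigX x := by
    rw [hK]
    exact union_subset_union_right _ subset_union_left
  have hXK1 : rot '' K ⊆ bigX x := by
    rw [hX]
    exact subset_union_right
  have hXK2 : rot '' (rot '' K) ⊆ bigX x := by
    rw [hK2]
    exact union_subset (fun a ha => Or.inr (Or.inr ha)) (fun a ha => Or.inl ha)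
  have mem0 : ∀ a ∈ sheet x, a ∈ K ∧ a ∈ rot '' (rot '' K) := by
    intro a ha
    rw [hK2, hK]
    exact ⟨Or.inl ha, Or.inr ha⟩
  have mem1 : ∀ a ∈ rot '' sheet x, a ∈ K ∧ a ∈ rot '' K := by
    intro a ha
    rw [hK1, hK]
    exact ⟨Or.inr ha, Or.inl ha⟩
  have mem2 : ∀ a ∈ rot '' (rot '' sheet x), a ∈ rot '' K ∧ a ∈ rot '' (rot '' K) := by
    intro a ha
    rw [hK2, hK1]
    exact ⟨Or.inr ha, Or.inl ha⟩
  refine ⟨?_, ?_, ?_⟩
  · rw [hX]
    exact hS.union hK1c
  · have hX' : bigX x = K ∪ rot '' K := by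
      apply Subset.antisymm
      · rw [hX]
        exact union_subset_union_left _ (fun a ha => (mem0 a ha).1)
      · exact union_subset hXK hXK1
    rw [hX']
    obtain ⟨a, ha⟩ := hSn.nonempty
    have hra : rot a ∈ rot '' sheet x := ⟨a, ha, rfl⟩
    exact IsConnected.union ⟨rot a, mem1 _ hra⟩ hKn hK1n
  · intro a ha b hb
    rcases ha with ha | ha | ha
    · rcases hb with hb | hb | hb
      · exact ⟨K, hXK, hKc, hKn, (mem0 a ha).1, (mem0 b hb).1, hKd⟩
      · exact ⟨K, hXK, hKc, hKn, (mem0 a ha).1, (mem1 b hb).1, hKd⟩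
      · exact ⟨_, hXK2, hK2c, hK2n, (mem0 a ha).2, (mem2 b hb).2, hK2d⟩
    · rcases hb with hb | hb | hb
      · exact ⟨K, hXK, hKc, hKn, (mem1 a ha).1, (mem0 b hb).1, hKd⟩
      · exact ⟨K, hXK, hKc, hKn, (mem1 a ha).1, (mem1 b hb).1, hKd⟩
      · exact ⟨_, hXK1, hK1c, hK1n, (mem1 a ha).2, (mem2 b hb).1, hK1d⟩
    · rcases hb with hb | hb | hb
      · exact ⟨_, hXK2, hK2c, hK2n, (mem2 a ha).2, (mem0 b hb).2, hK2d⟩
      · exact ⟨_, hXK1, hK1c, hK1n, (mem2 a ha).1, (mem1 b hb).2, hK1d⟩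
      · exact ⟨_, hXK1, hK1c, hK1n, (mem2 a ha).1, (mem2 b hb).1, hK1d⟩

end Pool.Agent.DCC
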