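import Pool.Agent.DCC.Targets

/-!
# DCC: the two bad points of `Y` (YC)
-/

set_option autoImplicit false

open Set Topology

namespace Pool.Agent.DCC

theorem t_YC (_hSHC : T_SHC) (hLEV : T_LEV) (hCLR : T_CLR) (hCIN : T_CIN) (_hPI : T_PI)
    (hPC : T_PC) : T_YC := by
  intro x gx
  have hp : pt (x 1) 0 1 ∈ ray x := by
    refine ⟨1, le_rfl, 1, ?_, ?_⟩
    · constructor
      · norm_num
      · norm_num
    · have : (1 : ℝ) - Real.cos (2 * Real.pi * 1) = 0 := by
        rw [mul_one, Real.cos_two_pi, sub_self]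
      rw [this, div_one]
  have hq : pt (x 1) 0 0 ∈ core := ⟨x 1, gx.1 1, 0, ⟨le_rfl, by norm_num⟩, rfl⟩
  refine ⟨cub (pt (x 1) 0 1), ⟨_, Or.inr hp, rfl⟩, cub (pt (x 1) 0 0), ⟨_, Or.inl hq, rfl⟩, ?_⟩
  intro K hKY hKc hKconn hpK hqK
  have hcub : Continuous cub := hPC.2.2.1
  have himg : IsPreconnected ((fun a : Amb => a.2.2) '' K) :=
    hKconn.isPreconnected.image _ (by fun_prop)
  have hIcc : Icc (0 : ℝ) 1 ⊆ (fun a : Amb => a.2.2) '' K :=
    himg.Icc_subset ⟨_, hqK, rfl⟩ ⟨_, hpK, rfl⟩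
  have hray : cub '' ray x ⊆ K := by
    rintro _ ⟨b, hb, rfl⟩
    have hb' := hb
    obtain ⟨n, hn, t, ht, rfl⟩ := hb'
    have hn1 : (1 : ℝ) ≤ n := by exact_mod_cast hn
    have ht1 : 1 ≤ t := hn1.trans ht.1
    have ht0 : 0 < t := by linarith
    have hmem : (1 / t) ∈ Icc (0 : ℝ) 1 := by
      constructor
      · positivity
      · rw [div_le_one ht0]
        exact ht1
    obtain ⟨y, hyK, hy⟩ := hIcc hmem
    obtain ⟨s, hs, rfl⟩ := hKY hyK
    have hlev := (hLEV x gx).2 _ (Or.inr hb) s hs (by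
      change 0 < 1 / t
      positivity) (by
      change 1 / t = s.2.2
      exact hy.symm)
    rw [hlev]
    exact hyK
  have hcore : cub '' core ⊆ K := by
    rintro _ ⟨b, hb, rfl⟩
    have h1 : b ∈ closure (ray x) := hCLR x gx hb
    have h2 : cub b ∈ closure (cub '' ray x) := image_closure_subset_closure_image hcub ⟨b, h1, rfl⟩
    exact hKc.isClosed.closure_subset_iff.2 hray h2
  exact hCIN.trans hcore

end Pool.Agent.DCC
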